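import Pool.Agent.D0H56.FJ.Step

/-!
# Filtrations of the vertex groups
-/

set_option autoImplicit false

namespace Pool.Agent.D0H56.FJ

open SimpleGraph
open Pool.Agent.Y110.FJ
open Pool.Agent.R941.FJ (C_equiv C_le C_cyc mem_sup_normal)

variable {C : ∀ (G : Type) [Group G], Prop}

section fin

variable {G V : Type} [Group G] [MulAction G V] {T : SimpleGraph V} {L R : V → Subgroup G}

theorem mem_sup_conj {A : Subgroup G} {g : G} (hg : ∀ x ∈ A, g * x * g⁻¹ ∈ A)
    (hg' : ∀ x ∈ A, g⁻¹ * x * g ∈ A) {x : G} (hx : x ∈ A ⊔ Subgroup.zpowers g) :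
    ∃ a ∈ A, ∃ j : ℤ, x = a * g ^ j := by
  have hz : ∀ j : ℤ, ∀ a ∈ A, g ^ j * a * (g ^ j)⁻¹ ∈ A := by
    intro j
    induction j using Int.induction_on with
    | zero =>
      intro a ha
      simpa using ha
    | succ n ih =>
      intro a ha
      have h1 := ih _ (hg a ha)
      have h2 : g ^ (n : ℤ) * (g * a * g⁻¹) * (g ^ (n : ℤ))⁻¹ =
          g ^ ((n : ℤ) + 1) * a * (g ^ ((n : ℤ) + 1))⁻¹ := by
        rw [zpow_add_one]
        group
      rwa [h2] at h1
    | pred n ih =>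
      intro a ha
      have h1 := ih _ (hg' a ha)
      have h2 : g ^ (-(n : ℤ)) * (g⁻¹ * a * g) * (g ^ (-(n : ℤ)))⁻¹ =
          g ^ (-(n : ℤ) - 1) * a * (g ^ (-(n : ℤ) - 1))⁻¹ := by
        rw [zpow_sub_one]
        group
      rwa [h2] at h1
  let B : Subgroup G :=
    { carrier := {x | ∃ a ∈ A, ∃ j : ℤ, x = a * g ^ j}
      one_mem' := ⟨1, A.one_mem, 0, by simp⟩
      mul_mem' := by
        rintro _ _ ⟨a, ha, j, rfl⟩ ⟨b, hb, i, rfl⟩
        refine ⟨a * (g ^ j * b * (g ^ j)⁻¹), A.mul_mem ha (hz j b hb), j + i, ?_⟩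
        rw [zpow_add]
        group
      inv_mem' := by
        rintro _ ⟨a, ha, j, rfl⟩
        refine ⟨g ^ (-j) * a⁻¹ * (g ^ (-j))⁻¹, hz _ _ (A.inv_mem ha), -j, ?_⟩
        group }
  have h1 : A ⊔ Subgroup.zpowers g ≤ B := by
    refine sup_le ?_ ?_
    · intro a ha
      exact ⟨a, ha, 0, by simp⟩
    · rw [Subgroup.zpowers_le]
      exact ⟨1, A.one_mem, 1, by simp⟩
  exact h1 hx

/-- finite quotients -/
theorem fin_RU (hR : Fm T R) (hle : ∀ v, R v ≤ L v)
    (hi : ∀ v, (R v).relIndex (L v) ≠ 0) : RU T L R := by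
  intro v w _
  refine ⟨R v, le_rfl, hle v, hi v, fun g hg x hx => ?_, fun x hx _ => hx⟩
  have := hR.conj g v x hx
  rwa [hg] at this

theorem fin_RV (hC : ClosedE C) (hL : Fm T L) (hR : Fm T R)
    (hi : ∀ v, (R v).relIndex (L v) ≠ 0) : RV C L R := by
  intro v g hg
  have hginv : g⁻¹ • v = v := inv_smul_eq_iff.2 hg.symm
  obtain ⟨A, hA⟩ : ∃ A : Subgroup G, A = L v ⊔ Subgroup.zpowers g := ⟨_, rfl⟩
  rw [← hA]
  have hLA : L v ≤ A := hA ▸ le_sup_left
  have hgA : g ∈ A := hA ▸ Subgroup.mem_sup_right (Subgroup.mem_zpowers g)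
  have hAv : ∀ a ∈ A, a • v = v := by
    have h1 : A ≤ MulAction.stabilizer G v := by
      rw [hA]
      exact sup_le (fun x hx => hL.fix v x hx) ((Subgroup.zpowers_le).2 hg)
    exact fun a ha => h1 ha
  have hn : ((R v).subgroupOf A).Normal := by
    refine ⟨fun x hx a => ?_⟩
    rw [Subgroup.mem_subgroupOf] at hx ⊢
    have h1 := hR.conj (a : G) v _ hx
    rw [hAv a a.2] at h1
    exact h1
  refine ⟨A ⧸ (R v).subgroupOf A, inferInstance, QuotientGroup.mk' _, ?_, ?_⟩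
  · -- the image of `g` generates a subgroup of finite index
    obtain ⟨q, hq⟩ : ∃ q : A ⧸ (R v).subgroupOf A, q = QuotientGroup.mk' _ ⟨g, hgA⟩ := ⟨_, rfl⟩
    have hdec : ∀ x : A, ∃ a : A, (a : G) ∈ L v ∧ ∃ j : ℤ, x = a * ⟨g, hgA⟩ ^ j := by
      rintro ⟨x, hx⟩
      rw [hA] at hx
      obtain ⟨a, ha, j, hj⟩ := mem_sup_conj (A := L v) (g := g) (fun y hy => by
        have := hL.conj g v y hy
        rwa [hg] at this) (fun y hy => by
        have := hL.conj g⁻¹ v y hy
        rwa [hginv, inv_inv] at this) hx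
      exact ⟨⟨a, hLA ha⟩, ha, j, Subtype.ext hj⟩
    have hfin : Finite (L v ⧸ (R v).subgroupOf (L v)) := by
      refine Nat.finite_of_card_ne_zero ?_
      exact hi v
    have hFI : (Subgroup.zpowers q).FiniteIndex := by
      have h1 : Finite ((A ⧸ (R v).subgroupOf A) ⧸ Subgroup.zpowers q) := by
        refine Finite.of_surjective (α := L v ⧸ (R v).subgroupOf (L v))
          (Quotient.lift (fun a : L v => (((⟨a, hLA a.2⟩ : A) : A ⧸ (R v).subgroupOf A) :
            (A ⧸ (R v).subgroupOf A) ⧸ Subgroup.zpowers q)) ?_) ?_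
        · intro a b hab
          have h1 : a⁻¹ * b ∈ (R v).subgroupOf (L v) := QuotientGroup.leftRel_apply.1 hab
          have h2 : ((⟨a, hLA a.2⟩ : A) : A ⧸ (R v).subgroupOf A) =
              ((⟨b, hLA b.2⟩ : A) : A ⧸ (R v).subgroupOf A) := QuotientGroup.eq.2 h1
          show (((⟨a, hLA a.2⟩ : A) : A ⧸ (R v).subgroupOf A) :
            (A ⧸ (R v).subgroupOf A) ⧸ Subgroup.zpowers q) = _
          rw [h2]
        · rintro ⟨⟨x⟩⟩
          obtain ⟨a, ha, j, hj⟩ := hdec x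
          refine ⟨Quotient.mk _ ⟨a, ha⟩, ?_⟩
          show (((a : A) : A ⧸ (R v).subgroupOf A) :
            (A ⧸ (R v).subgroupOf A) ⧸ Subgroup.zpowers q) = ((x : A ⧸ (R v).subgroupOf A) : _)
          refine QuotientGroup.eq.2 ⟨j, ?_⟩
          show q ^ j = (a : A ⧸ (R v).subgroupOf A)⁻¹ * (x : A ⧸ (R v).subgroupOf A)
          rw [hj, hq, QuotientGroup.mk_mul, inv_mul_cancel_left]
          rfl
      exact Subgroup.finiteIndex_of_finite_quotient
    exact hC.base.finiteIndex _ _ hFI (C_cyc hC.base q)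
  · intro x
    rw [← MonoidHom.mem_ker, QuotientGroup.ker_mk', Subgroup.mem_subgroupOf]

end fin

/-- **filtrations** -/
theorem chain (hC : ClosedE C) (hM : ∀ (G : Type) [Group G], derivedSeries G 2 = ⊥ → C G) (k : ℕ) :
    ∀ {G V : Type} [Group G] [MulAction G V] {T : SimpleGraph V}, T.IsTree →
    (∀ (g : G) (u v : V), T.Adj u v → T.Adj (g • u) (g • v)) →
    ∀ (L : Subgroup G) [L.Normal], C (G ⧸ L) → ∀ R : ℕ → V → Subgroup G,
    (∀ v, R 0 v = L ⊓ MulAction.stabilizer G v) → (∀ v, R k v = ⊥) →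
    (∀ i ≤ k, Fm T (R i)) → (∀ i < k, ∀ v, R (i + 1) v ≤ R i v) →
    (∀ i < k, (∀ v, ⁅R i v, R i v⁆ ≤ R (i + 1) v) ∨ (∀ v, (R (i + 1) v).relIndex (R i v) ≠ 0) ∨
      (RU T (R i) (R (i + 1)) ∧ RV C (R i) (R (i + 1)))) → C G := by
  induction k with
  | zero =>
    intro G V _ _ T hT hact L _ hQ R h0 hk _ _ _
    refine Pool.Agent.N24.TR.tree_local hC hT hact fun v => ⟨G ⧸ L, inferInstance,
      QuotientGroup.mk' L, hQ, fun g hg h1 => ?_⟩
    have h2 : g ∈ R 0 v := by
      rw [h0]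
      exact ⟨(QuotientGroup.eq_one_iff g).1 h1, hg⟩
    rw [hk] at h2
    exact Subgroup.mem_bot.1 h2
  | succ k ih =>
    intro G V _ _ T hT hact L _ hQ R h0 hk hR hle hstep
    have hR1 : Fm T (R 1) := hR 1 (by omega)
    have hle0 := hle 0 (by omega)
    obtain ⟨N, hN⟩ : ∃ N : Subgroup G, N = ⨆ v, R 1 v := ⟨_, rfl⟩
    have hNn : N.Normal := hN ▸ hR1.normal
    have hRL : ∀ v, R 1 v ≤ L := by
      intro v
      refine (hle0 v).trans ?_
      rw [h0]
      exact inf_le_left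
    have hN1 : ∀ v, R 1 v = N ⊓ MulAction.stabilizer G v := by
      intro v
      apply le_antisymm
      · intro x hx
        exact ⟨hN ▸ le_iSup (R 1) v hx, hR1.fix v x hx⟩
      · rintro x ⟨h1, h2⟩
        exact hR1.stab hT hact v (hN ▸ h1) h2
    have hfun : R 0 = fun v => L ⊓ MulAction.stabilizer G v := funext h0
    have hQN : C (G ⧸ N) := by
      refine quot_step hC hM hT hact L hQ hR1 hRL N hN ?_
      rcases hstep 0 (by omega) with h | h | h
      · left
        intro v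
        rw [← h0]
        exact h v
      · right
        rw [← hfun]
        exact ⟨fin_RU hR1 hle0 h,
          fin_RV hC (hR 0 (by omega)) hR1 h⟩
      · right
        rw [← hfun]
        exact h
    refine ih hT hact N hQN (fun i => R (i + 1)) hN1 hk (fun i hi => hR (i + 1) (by omega))
      (fun i hi => hle (i + 1) (by omega)) (fun i hi => hstep (i + 1) (by omega))

end Pool.Agent.D0H56.FJ
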