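import Pool.Agent.D0H56.FJ.Rep

/-!
# Powers in finite-by-cyclic groups
-/

set_option autoImplicit false

namespace Pool.Agent.D0H56.FJ

/-- high powers only depend on the class modulo a finite normal subgroup -/
theorem pow_key {Q : Type} [Group Q] (F : Subgroup Q) [F.Normal] (B : ℕ) (hB : 0 < B)
    (h : Nat.card F ∣ B) (y x : Q) (hx : x ∈ F) :
    (x * y) ^ (B.factorial * B) = y ^ (B.factorial * B) := by
  have hF0 : Nat.card F ≠ 0 := by
    intro h0
    rw [h0, zero_dvd_iff] at h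
    omega
  have hfin : Finite F := Nat.finite_of_card_ne_zero hF0
  obtain ⟨z, hz⟩ : ∃ z, z = y ^ B.factorial := ⟨_, rfl⟩
  have hcomm : ∀ f ∈ F, z * f * z⁻¹ = f := by
    intro f hf
    have h1 : (MulAut.toPerm F (MulAut.conjNormal y)) ^ B.factorial = 1 := by
      have h2 : (MulAut.toPerm F (MulAut.conjNormal y)) ^ (Nat.card F).factorial = 1 := by
        rw [← Nat.card_perm]
        exact pow_card_eq_one'
      have h3 : (Nat.card F).factorial ∣ B.factorial :=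
        Nat.factorial_dvd_factorial (Nat.le_of_dvd hB h)
      obtain ⟨t, ht⟩ := h3
      rw [ht, pow_mul, h2, one_pow]
    rw [← map_pow, ← map_pow, ← hz] at h1
    have h2 := congrArg (fun σ : Equiv.Perm F => ((σ ⟨f, hf⟩ : F) : Q)) h1
    have h3 : ((MulAut.toPerm F (MulAut.conjNormal z) ⟨f, hf⟩ : F) : Q) = z * f * z⁻¹ :=
      MulAut.conjNormal_apply z ⟨f, hf⟩
    have h4 : ((MulAut.toPerm F (MulAut.conjNormal z) ⟨f, hf⟩ : F) : Q) = f := h2
    rw [← h3, h4]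
  have hx' : (x * y) ^ B.factorial * z⁻¹ ∈ F := by
    rw [← QuotientGroup.eq_one_iff, QuotientGroup.mk_mul, QuotientGroup.mk_pow, QuotientGroup.mk_mul,
      (QuotientGroup.eq_one_iff x).2 hx, one_mul, hz, QuotientGroup.mk_inv, QuotientGroup.mk_pow,
      mul_inv_cancel]
  obtain ⟨w, hw⟩ : ∃ w, w = (x * y) ^ B.factorial * z⁻¹ := ⟨_, rfl⟩
  rw [← hw] at hx'
  have h1 : (x * y) ^ B.factorial = w * z := by rw [hw, inv_mul_cancel_right]
  have hwz : Commute w z := by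
    have h2 := hcomm w hx'
    rw [mul_inv_eq_iff_eq_mul] at h2
    exact h2.symm
  have hwB : w ^ B = 1 := by
    obtain ⟨t, ht⟩ := h
    have h2 : (⟨w, hx'⟩ : F) ^ Nat.card F = 1 := pow_card_eq_one'
    have h3 : w ^ Nat.card F = 1 := congrArg Subtype.val h2
    rw [ht, pow_mul, h3, one_pow]
  rw [pow_mul, pow_mul, h1, hwz.mul_pow, hwB, one_mul, ← hz]

section zs

variable {A : Type} [Group A]

/-- powers modulo `U` -/
theorem pow_mod (ν : A →* Multiplicative ℤ) (U : Subgroup A) [U.Normal] (B : ℕ) (hB : 0 < B)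
    (hi : U.relIndex ν.ker ∣ B) (x y : A) (h : ν x = ν y) :
    ((x : A ⧸ U)) ^ (B.factorial * B) = (y : A ⧸ U) ^ (B.factorial * B) := by
  obtain ⟨F, hF⟩ : ∃ F : Subgroup (A ⧸ U), F = ν.ker.map (QuotientGroup.mk' U) := ⟨_, rfl⟩
  have hFn : F.Normal := by
    rw [hF]
    exact Subgroup.Normal.map inferInstance _ (QuotientGroup.mk'_surjective _)
  have hc : Nat.card F = U.relIndex ν.ker := by
    rw [hF, ← Subgroup.relIndex_ker, QuotientGroup.ker_mk']
  have h1 : ((x * y⁻¹ : A) : A ⧸ U) ∈ F := by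
    rw [hF]
    refine ⟨x * y⁻¹, ?_, rfl⟩
    show ν (x * y⁻¹) = 1
    rw [map_mul, map_inv, h, mul_inv_cancel]
  have h2 := pow_key F B hB (hc ▸ hi) (y : A ⧸ U) _ h1
  rw [← h2, ← QuotientGroup.mk_mul, inv_mul_cancel_right]

/-- the subgroup of the high powers -/
theorem Zs_spec (ν : A →* Multiplicative ℤ) (U : Subgroup A) [U.Normal] (hUν : U ≤ ν.ker) (B κ : ℕ)
    (hB : 0 < B) (hi : U.relIndex ν.ker ∣ B)
    (hy : (∃ y, ν y ≠ 1) →
      ∃ y, ν y ≠ 1 ∧ ((B.factorial * B : ℕ) : ℤ) * Multiplicative.toAdd (ν y) ∣ (κ : ℤ)) :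
    ∃ Z : Subgroup A, (∀ x, x ∈ Z ↔ (κ : ℤ) ∣ Multiplicative.toAdd (ν x) ∧
      ∃ y, y ^ (B.factorial * B) * x⁻¹ ∈ U) ∧ Z ⊓ ν.ker ≤ U ∧ Z.index ∣ κ * B := by
  obtain ⟨E, hE⟩ : ∃ E, E = B.factorial * B := ⟨_, rfl⟩
  have hE0 : 0 < E := by
    rw [hE]
    exact Nat.mul_pos (Nat.factorial_pos B) hB
  have hpm := pow_mod ν U B hB hi
  rw [← hE] at hy hpm ⊢
  -- a generator
  have hgen : ∃ y0 : A, ∀ y : A, ∃ j : ℤ, ν y = ν (y0 ^ j) := by
    obtain ⟨⟨g, y0, rfl⟩, hg⟩ := IsCyclic.exists_generator (α := ν.range)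
    refine ⟨y0, fun y => ?_⟩
    obtain ⟨j, hj⟩ := hg ⟨ν y, y, rfl⟩
    refine ⟨j, ?_⟩
    have h1 := congrArg Subtype.val hj
    rw [map_zpow]
    exact h1.symm
  obtain ⟨y0, hy0⟩ := hgen
  have hmem : ∀ x y : A, y ^ E * x⁻¹ ∈ U ↔ (y : A ⧸ U) ^ E = (x : A ⧸ U) := by
    intro x y
    rw [← QuotientGroup.eq_one_iff, QuotientGroup.mk_mul, QuotientGroup.mk_inv, QuotientGroup.mk_pow,
      mul_inv_eq_one]
  have hW : ∀ y : A, ∃ j : ℤ, (y : A ⧸ U) ^ E = ((y0 : A ⧸ U) ^ E) ^ j := by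
    intro y
    obtain ⟨j, hj⟩ := hy0 y
    refine ⟨j, ?_⟩
    rw [hpm y _ hj, QuotientGroup.mk_zpow, ← zpow_natCast, ← zpow_natCast, ← zpow_mul, ← zpow_mul,
      mul_comm]
  have hW' : ∀ j : ℤ, ((y0 ^ j : A) : A ⧸ U) ^ E = ((y0 : A ⧸ U) ^ E) ^ j := by
    intro j
    rw [QuotientGroup.mk_zpow, ← zpow_natCast, ← zpow_natCast, ← zpow_mul, ← zpow_mul, mul_comm]
  let Z : Subgroup A :=
    { carrier := {x | (κ : ℤ) ∣ Multiplicative.toAdd (ν x) ∧ ∃ y, y ^ E * x⁻¹ ∈ U}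
      one_mem' := by
        refine ⟨?_, 1, ?_⟩
        · rw [map_one, toAdd_one]
          exact dvd_zero _
        · rw [one_pow, inv_one, mul_one]
          exact U.one_mem
      mul_mem' := by
        rintro a b ⟨ha, y, hy1⟩ ⟨hb, y', hy2⟩
        refine ⟨?_, ?_⟩
        · rw [map_mul, toAdd_mul]
          exact dvd_add ha hb
        · rw [hmem] at hy1 hy2
          obtain ⟨j, hj⟩ := hW y
          obtain ⟨j', hj'⟩ := hW y'
          refine ⟨y0 ^ (j + j'), ?_⟩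
          rw [hmem, hW', zpow_add, ← hj, ← hj', hy1, hy2]
          rfl
      inv_mem' := by
        rintro a ⟨ha, y, hy1⟩
        refine ⟨?_, y⁻¹, ?_⟩
        · rw [map_inv, toAdd_inv]
          exact (dvd_neg).2 ha
        · rw [hmem] at hy1 ⊢
          rw [QuotientGroup.mk_inv, inv_pow, hy1]
          rfl }
  have hZm : ∀ x, x ∈ Z ↔ (κ : ℤ) ∣ Multiplicative.toAdd (ν x) ∧ ∃ y, y ^ E * x⁻¹ ∈ U :=
    fun x => Iff.rfl
  have hZU : Z ⊓ ν.ker ≤ U := by
    rintro x ⟨hx, hxν⟩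
    obtain ⟨-, y, hy1⟩ := hx
    have hxν : ν x = 1 := hxν
    have h1 : ν (y ^ E) = 1 := by
      have h2 : ν (y ^ E * x⁻¹) = 1 := hUν hy1
      rwa [map_mul, map_inv, hxν, inv_one, mul_one] at h2
    have h2 : ν y = ν 1 := by
      rw [map_one]
      rw [map_pow] at h1
      have h3 := congrArg Multiplicative.toAdd h1
      rw [toAdd_pow, toAdd_one, nsmul_eq_mul, mul_eq_zero] at h3
      rcases h3 with h3 | h3
      · exfalso
        have : (E : ℤ) ≠ 0 := by exact_mod_cast hE0.ne'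
        exact this h3
      · exact toAdd_eq_zero.1 h3
    have h3 := hpm y 1 h2
    rw [hmem] at hy1
    rw [hy1, QuotientGroup.mk_one, one_pow] at h3
    exact (QuotientGroup.eq_one_iff x).1 h3
  have hUZ : U ≤ Z := by
    intro x hx
    refine ⟨?_, 1, ?_⟩
    · have h1 : ν x = 1 := hUν hx
      rw [h1, toAdd_one]
      exact dvd_zero _
    · rw [one_pow, one_mul]
      exact U.inv_mem hx
  have hZn : Z.Normal := by
    refine ⟨fun x hx g => ?_⟩
    obtain ⟨h1, y, hy1⟩ := hx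
    refine ⟨?_, g * y * g⁻¹, ?_⟩
    · have h2 : ν (g * x * g⁻¹) = ν x := by
        rw [map_mul, map_mul, map_inv, mul_right_comm, mul_inv_cancel, one_mul]
      rw [h2]
      exact h1
    · rw [hmem] at hy1 ⊢
      rw [QuotientGroup.mk_mul, QuotientGroup.mk_mul, QuotientGroup.mk_inv, conj_pow, hy1]
      rfl
  refine ⟨Z, hZm, hZU, ?_⟩
  have hrel : Z.relIndex (Z ⊔ ν.ker) ∣ B := by
    rw [Subgroup.relIndex_sup_left, ← Subgroup.inf_relIndex_right]
    have h1 : Z ⊓ ν.ker = U := le_antisymm hZU (le_inf hUZ hUν)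
    rw [h1]
    exact hi
  rw [← Subgroup.relIndex_mul_index (le_sup_left : Z ≤ Z ⊔ ν.ker), mul_comm κ B]
  refine mul_dvd_mul hrel ?_
  by_cases htriv : ∃ y, ν y ≠ 1
  · obtain ⟨y1, hy1, t, ht⟩ := hy htriv
    let μ : A →* Multiplicative (ZMod κ) :=
      (AddMonoidHom.toMultiplicative (Int.castAddHom (ZMod κ))).comp ν
    have hμ : μ.ker ≤ Z ⊔ ν.ker := by
      intro x hx
      have h1 : ((Multiplicative.toAdd (ν x) : ℤ) : ZMod κ) = 0 := hx
      rw [ZMod.intCast_zmod_eq_zero_iff_dvd] at h1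
      obtain ⟨m, hm⟩ := h1
      obtain ⟨w, hw⟩ : ∃ w, w = (y1 ^ (t * m)) ^ E := ⟨_, rfl⟩
      have hνw : ν w = ν x := by
        apply Multiplicative.toAdd.injective
        rw [hm, ht, hw, map_pow, map_zpow, toAdd_pow, toAdd_zpow, nsmul_eq_mul, zsmul_eq_mul]
        push_cast
        ring
      have hwZ : w ∈ Z := by
        refine ⟨?_, y1 ^ (t * m), ?_⟩
        · rw [hνw, hm]
          exact dvd_mul_right _ _
        · rw [← hw, mul_inv_cancel]
          exact U.one_mem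
      have h2 : w⁻¹ * x ∈ ν.ker := by
        show ν (w⁻¹ * x) = 1
        rw [map_mul, map_inv, hνw, inv_mul_cancel]
      have h3 := Subgroup.mul_mem_sup hwZ h2
      rwa [mul_inv_cancel_left] at h3
    refine (Subgroup.index_dvd_of_le hμ).trans ?_
    rw [Subgroup.index_ker]
    have h1 : Nat.card (Multiplicative (ZMod κ)) = κ := Nat.card_zmod κ
    have h2 := Subgroup.card_subgroup_dvd_card μ.range
    rwa [h1] at h2
  · push Not at htriv
    have h1 : ν.ker = ⊤ := by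
      rw [eq_top_iff]
      intro x _
      exact htriv x
    rw [h1, sup_top_eq, Subgroup.index_top]
    exact one_dvd _

end zs

section fam

variable {M V : Type} [Group M] [MulAction M V] {T : SimpleGraph V}

/-- the equivariant family of the subgroups of the high powers -/
theorem exists_Z (ν : M →* Multiplicative ℤ) (U : V → Subgroup M) (B κ : ℕ) (hB : 0 < B)
    (hU : ∀ v, U v ≤ ν.ker ⊓ MulAction.stabilizer M v)
    (hUc : ∀ (m : M) v x, x ∈ U v → m * x * m⁻¹ ∈ U (m • v))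
    (hUi : ∀ v, (U v).relIndex (ν.ker ⊓ MulAction.stabilizer M v) ∣ B)
    (hUe : ∀ v w, T.Adj v w → ∀ x ∈ U v, x • w = w → x ∈ U w)
    (hv : ∀ v : V, (∃ y : M, y • v = v ∧ ν y ≠ 1) → ∃ y : M, y • v = v ∧ ν y ≠ 1 ∧
      ((B.factorial * B : ℕ) : ℤ) * Multiplicative.toAdd (ν y) ∣ (κ : ℤ))
    (he : ∀ v w, T.Adj v w → (∃ y : M, y • v = v ∧ y • w = w ∧ ν y ≠ 1) →
      ∃ y : M, y • v = v ∧ y • w = w ∧ ν y ≠ 1 ∧
      ((B.factorial * B : ℕ) : ℤ) * Multiplicative.toAdd (ν y) ∣ (κ : ℤ)) :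
    ∃ Z : V → Subgroup M, (∀ (m : M) v x, x ∈ Z v → m * x * m⁻¹ ∈ Z (m • v)) ∧
      (∀ v, Z v ⊓ ν.ker = U v) ∧
      (∀ v, ((Z v).subgroupOf (MulAction.stabilizer M v)).index ∣ κ * B) ∧
      ∀ v w, T.Adj v w → ∀ a : M, a • v = v → a • w = w → (a ∈ Z v ↔ a ∈ Z w) := by
  obtain ⟨E, hE⟩ : ∃ E, E = B.factorial * B := ⟨_, rfl⟩
  have key : ∀ v, ∃ Z : Subgroup M, (∀ x, x ∈ Z ↔ x • v = v ∧
      (κ : ℤ) ∣ Multiplicative.toAdd (ν x) ∧ ∃ y : M, y • v = v ∧ y ^ E * x⁻¹ ∈ U v) ∧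
      Z ⊓ ν.ker ≤ U v ∧ (Z.subgroupOf (MulAction.stabilizer M v)).index ∣ κ * B := by
    intro v
    obtain ⟨A, hA⟩ : ∃ A : Subgroup M, A = MulAction.stabilizer M v := ⟨_, rfl⟩
    have hAm : ∀ x : M, x ∈ A ↔ x • v = v := by
      intro x
      rw [hA]
      exact Iff.rfl
    have hn : ((U v).subgroupOf A).Normal := by
      refine ⟨fun x hx g => ?_⟩
      rw [Subgroup.mem_subgroupOf] at hx ⊢
      have h1 := hUc g v _ hx
      rw [(hAm g).1 g.2] at h1
      exact h1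
    have h1 : (U v).subgroupOf A ≤ (ν.comp A.subtype).ker := by
      intro x hx
      exact (hU v hx).1
    have hle := hU v
    rw [← hA] at hle
    have hrel : ((U v).subgroupOf A).relIndex (ν.comp A.subtype).ker ∣ B := by
      have h2 : ((U v).subgroupOf A).relIndex (ν.comp A.subtype).ker =
          (U v).relIndex (ν.ker ⊓ A) := by
        show ((U v).comap A.subtype).relIndex _ = _
        rw [Subgroup.relIndex_comap]
        congr 1
        ext x
        constructor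
        · rintro ⟨y, hy, rfl⟩
          exact ⟨hy, y.2⟩
        · rintro ⟨h3, h4⟩
          exact ⟨⟨x, h4⟩, h3, rfl⟩
      rw [h2, hA]
      exact hUi v
    obtain ⟨Z, hZ1, hZ2, hZ3⟩ := Zs_spec (ν.comp A.subtype) ((U v).subgroupOf A) h1 B κ hB hrel (by
      rintro ⟨y, hy⟩
      obtain ⟨y', h3, h4, h5⟩ := hv v ⟨y, (hAm y).1 y.2, hy⟩
      exact ⟨⟨y', (hAm y').2 h3⟩, h4, h5⟩)
    refine ⟨Z.map A.subtype, ?_, ?_, ?_⟩
    · intro x
      constructor
      · rintro ⟨y, hy, rfl⟩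
        obtain ⟨h3, w, hw⟩ := (hZ1 y).1 hy
        refine ⟨(hAm y).1 y.2, h3, w, (hAm w).1 w.2, ?_⟩
        rw [hE]
        exact hw
      · rintro ⟨h3, h4, w, hw, h5⟩
        refine ⟨⟨x, (hAm x).2 h3⟩, (hZ1 _).2 ⟨h4, ⟨w, (hAm w).2 hw⟩, ?_⟩, rfl⟩
        rw [hE] at h5
        exact h5
    · rintro x ⟨⟨y, hy, rfl⟩, h3⟩
      exact hZ2 ⟨hy, h3⟩
    · rw [← hA]
      have h3 : (Z.map A.subtype).subgroupOf A = Z :=
        Subgroup.comap_map_eq_self_of_injective (Subgroup.subtype_injective _) _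
      rw [h3]
      exact hZ3
  choose Z hZ1 hZ2 hZ3 using key
  have hUZ : ∀ v, U v ≤ Z v := by
    intro v x hx
    obtain ⟨h1, h2⟩ := hU v hx
    have h1 : ν x = 1 := h1
    refine (hZ1 v x).2 ⟨h2, ?_, 1, one_smul M v, ?_⟩
    · rw [h1, toAdd_one]
      exact dvd_zero _
    · rw [one_pow, one_mul]
      exact (U v).inv_mem hx
  refine ⟨Z, ?_, fun v => le_antisymm (hZ2 v) (le_inf (hUZ v) fun x hx => (hU v hx).1), hZ3, ?_⟩
  · intro m v x hx
    rw [hZ1] at hx ⊢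
    obtain ⟨h1, h2, y, hy, h3⟩ := hx
    refine ⟨?_, ?_, m * y * m⁻¹, ?_, ?_⟩
    · rw [mul_smul, mul_smul, inv_smul_smul, h1]
    · have h4 : ν (m * x * m⁻¹) = ν x := by
        rw [map_mul, map_mul, map_inv, mul_right_comm, mul_inv_cancel, one_mul]
      rw [h4]
      exact h2
    · rw [mul_smul, mul_smul, inv_smul_smul, hy]
    · have h4 := hUc m v _ h3
      have h5 : m * (y ^ E * x⁻¹) * m⁻¹ = (m * y * m⁻¹) ^ E * (m * x * m⁻¹)⁻¹ := by
        rw [conj_pow]
        group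
      rwa [h5] at h4
  · have hone : ∀ v w, T.Adj v w → ∀ a : M, a • v = v → a • w = w → a ∈ Z v → a ∈ Z w := by
      intro v w hvw a hav haw ha
      by_cases htriv : ∃ y : M, y • v = v ∧ y • w = w ∧ ν y ≠ 1
      · obtain ⟨y, hyv, hyw, hy1, t, ht⟩ := he v w hvw htriv
        have ha' := (hZ1 v a).1 ha
        obtain ⟨-, ⟨j, hj⟩, -⟩ := ha'
        rw [← hE] at ht
        obtain ⟨b, hb⟩ : ∃ b, b = y ^ (t * j) := ⟨_, rfl⟩
        have hbv : b • v = v := by
          rw [hb]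
          exact (MulAction.stabilizer M v).zpow_mem hyv _
        have hbw : b • w = w := by
          rw [hb]
          exact (MulAction.stabilizer M w).zpow_mem hyw _
        have hνb : ν (b ^ E) = ν a := by
          apply Multiplicative.toAdd.injective
          rw [hj, ht, hb, map_pow, map_zpow, toAdd_pow, toAdd_zpow, nsmul_eq_mul, zsmul_eq_mul]
          push_cast
          ring
        have hbEv : (b ^ E) • v = v := (MulAction.stabilizer M v).pow_mem hbv _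
        have hbEw : (b ^ E) • w = w := (MulAction.stabilizer M w).pow_mem hbw _
        have hbZ : ∀ u : V, b • u = u → (b ^ E) • u = u → b ^ E ∈ Z u := by
          intro u h1 h2
          rw [hZ1]
          refine ⟨h2, ?_, b, h1, ?_⟩
          · rw [hνb, hj]
            exact dvd_mul_right _ _
          · rw [mul_inv_cancel]
            exact (U u).one_mem
        have h1 : a * (b ^ E)⁻¹ ∈ Z v ⊓ ν.ker := by
          refine ⟨(Z v).mul_mem ha ((Z v).inv_mem (hbZ v hbv hbEv)), ?_⟩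
          show ν (a * (b ^ E)⁻¹) = 1
          rw [map_mul, map_inv, hνb, mul_inv_cancel]
        have h2 := hUe v w hvw _ (hZ2 v h1) (by
          rw [mul_smul, inv_smul_eq_iff.2 hbEw.symm, haw])
        have h3 := (Z w).mul_mem (hUZ w h2) (hbZ w hbw hbEw)
        rwa [inv_mul_cancel_right] at h3
      · push Not at htriv
        have h1 : ν a = 1 := htriv a hav haw
        exact hUZ w (hUe v w hvw a (hZ2 v ⟨ha, h1⟩) haw)
    intro v w hvw a hav haw
    exact ⟨hone v w hvw a hav haw, hone w v hvw.symm a haw hav⟩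

end fam

end Pool.Agent.D0H56.FJ
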