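import Pool.Agent.D0H56.FJ.Sys
import Pool.Agent.D0H56.FJ.Pow
import Pool.Agent.N509.TX.Sub

/-!
# Groups acting on trees: homomorphisms with residually finite kernels on the vertex groups
-/

set_option autoImplicit false

namespace Pool.Agent.D0H56.FJ

open SimpleGraph
open Pool.Agent.Y110.FJ
open Pool.Agent.N24.TR (gam gam_map gam_mul gam_self gam_adj gam_eq)
open Pool.Agent.N509.TX (STree fg_subtree of_fg)
open Pool.Agent.R941.FJ (C_equiv C_le C_cyc mem_sup_normal)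

variable {C : ∀ (G : Type) [Group G], Prop}

/-- the vertex groups of `K` have subgroups of finite index which are normal in the vertex groups of
`G` and intersect a given edge group trivially -/
def HU {G V : Type} [Group G] [MulAction G V] (T : SimpleGraph V) (K : Subgroup G) : Prop :=
  ∀ v w, T.Adj v w → ∃ U : Subgroup G, U ≤ K ⊓ MulAction.stabilizer G v ∧
    U.relIndex (K ⊓ MulAction.stabilizer G v) ≠ 0 ∧
    (∀ g : G, g • v = v → ∀ x ∈ U, g * x * g⁻¹ ∈ U) ∧ ∀ x ∈ U, x • w = w → x = 1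

section

variable {G V : Type} [Group G] [MulAction G V] {T : SimpleGraph V}

theorem HU.sub {K : Subgroup G} (h : HU T K) (H : Subgroup G) : HU T (K.subgroupOf H) := by
  intro v w hvw
  obtain ⟨U, h1, h2, h3, h4⟩ := h v w hvw
  refine ⟨U.subgroupOf H, ?_, ?_, ?_, ?_⟩
  · intro x hx
    exact h1 hx
  · show (U.comap H.subtype).relIndex _ ≠ 0
    rw [Subgroup.relIndex_comap]
    intro h5
    refine h2 (Subgroup.relIndex_eq_zero_of_le_right ?_ h5)
    rintro _ ⟨y, hy, rfl⟩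
    exact hy
  · intro g hg x hx
    exact h3 (g : G) hg (x : G) hx
  · intro x hx hxw
    exact Subtype.ext (h4 (x : G) hx hxw)

theorem HU.stree {K : Subgroup G} (h : HU T K) {W : Type} [MulAction G W] {T' : SimpleGraph W}
    {ι : W → V} (hS : STree G T T' ι) : HU T' K := by
  intro v w hvw
  obtain ⟨U, h1, h2, h3, h4⟩ := h (ι v) (ι w) (hS.adj v w hvw)
  rw [← hS.stab v] at h1 h2
  refine ⟨U, h1, h2, fun g hg x hx => h3 g (hS.fix.1 hg) x hx, fun x hx hxw => h4 x hx (hS.fix.1 hxw)⟩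

/-- conjugation of stabilizers -/
theorem stab_conj (m g : G) (v : V) (h : g • v = v) : (m * g * m⁻¹) • (m • v) = m • v := by
  rw [mul_smul, mul_smul, inv_smul_smul, h]

/-- finitely many orbits of edges: an equivariant choice -/
theorem exists_U {K : Subgroup G} [hK : K.Normal] (h : HU T K)
    (hact : ∀ (g : G) (u v : V), T.Adj u v → T.Adj (g • u) (g • v))
    (Φ : Finset (V × V)) (hΦ : ∀ x y, T.Adj x y → ∃ h : G, (h • x, h • y) ∈ Φ) :
    ∃ U : V → Subgroup G, (∀ v, U v ≤ K ⊓ MulAction.stabilizer G v) ∧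
      (∀ (m : G) v x, x ∈ U v → m * x * m⁻¹ ∈ U (m • v)) ∧
      (∀ v, (U v).relIndex (K ⊓ MulAction.stabilizer G v) ≠ 0) ∧
      (∀ v w, T.Adj v w → ∀ x ∈ U v, x • w = w → x = 1) := by
  classical
  -- one vertex
  have key : ∀ v : V, ∃ U : Subgroup G, U ≤ K ⊓ MulAction.stabilizer G v ∧
      U.relIndex (K ⊓ MulAction.stabilizer G v) ≠ 0 ∧
      (∀ g : G, g • v = v → ∀ x ∈ U, g * x * g⁻¹ ∈ U) ∧
      (∀ w, T.Adj v w → ∀ x ∈ U, x • w = w → x = 1) := by
    intro v
    have h1 : ∀ p : Φ, ∃ U : Subgroup G, U.relIndex (K ⊓ MulAction.stabilizer G v) ≠ 0 ∧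
        (∀ g : G, g • v = v → ∀ x ∈ U, g * x * g⁻¹ ∈ U) ∧
        ∀ w, T.Adj v w → (∃ g : G, (g • v, g • w) = (p : V × V)) →
          ∀ x ∈ U, x • v = v → x • w = w → x = 1 := by
      intro p
      by_cases hp : ∃ w, T.Adj v w ∧ ∃ g : G, (g • v, g • w) = (p : V × V)
      · obtain ⟨w0, hw0, g0, hg0⟩ := hp
        obtain ⟨U, h1, h2, h3, h4⟩ := h v w0 hw0
        refine ⟨U, h2, h3, ?_⟩
        rintro w hw ⟨g, hg⟩ x hx hxv hxw
        have e1 : g • v = g0 • v := congrArg Prod.fst (hg.trans hg0.symm)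
        have e2 : g • w = g0 • w0 := congrArg Prod.snd (hg.trans hg0.symm)
        obtain ⟨a, ha⟩ : ∃ a, a = g0⁻¹ * g := ⟨_, rfl⟩
        have ha1 : a • v = v := by rw [ha, mul_smul, e1, inv_smul_smul]
        have ha2 : a • w = w0 := by rw [ha, mul_smul, e2, inv_smul_smul]
        have h5 := h3 a ha1 x hx
        have h6 : (a * x * a⁻¹) • w0 = w0 := by
          rw [← ha2]
          exact stab_conj a x w hxw
        have h7 := h4 _ h5 h6
        exact conj_eq_one_iff.1 h7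
      · refine ⟨⊤, ?_, fun _ _ _ _ => Subgroup.mem_top _, ?_⟩
        · rw [Subgroup.relIndex_top_left]
          exact one_ne_zero
        · intro w hw hg
          exact absurd ⟨w, hw, hg⟩ hp
    choose W hW1 hW2 hW3 using h1
    refine ⟨K ⊓ MulAction.stabilizer G v ⊓ ⨅ p, W p, inf_le_left, ?_, ?_, ?_⟩
    · rw [inf_comm, Subgroup.inf_relIndex_right]
      exact Subgroup.relIndex_iInf_ne_zero hW1
    · rintro g hg x ⟨⟨hx1, hx2⟩, hx3⟩
      refine ⟨⟨hK.conj_mem x hx1 g, ?_⟩, ?_⟩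
      · have h5 : g • v = v := hg
        show (g * x * g⁻¹) • v = v
        have h6 := stab_conj g x v hx2
        rwa [h5] at h6
      · have hx3 : x ∈ ⨅ p, W p := hx3
        show g * x * g⁻¹ ∈ ⨅ p, W p
        rw [Subgroup.mem_iInf] at hx3 ⊢
        exact fun p => hW2 p g hg x (hx3 p)
    · rintro w hw x ⟨⟨hx1, hx2⟩, hx3⟩ hxw
      have hx3 : x ∈ ⨅ p, W p := hx3
      rw [Subgroup.mem_iInf] at hx3
      obtain ⟨g, hg⟩ := hΦ v w hw
      exact hW3 ⟨_, hg⟩ w hw ⟨g, rfl⟩ x (hx3 _) hx2 hxw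
  choose U0 hU1 hU2 hU3 hU4 using key
  obtain ⟨R, S, hS, hR⟩ := reps G V
  have hRS : ∀ v, (S v)⁻¹ • v = R v := fun v => inv_smul_eq_iff.2 (hS v)
  have hmem : ∀ v x, x ∈ (U0 (R v)).map (MulAut.conj (S v)).toMonoidHom ↔
      (S v)⁻¹ * x * S v ∈ U0 (R v) := by
    intro v x
    constructor
    · rintro ⟨y, hy, rfl⟩
      show (S v)⁻¹ * (S v * y * (S v)⁻¹) * S v ∈ U0 (R v)
      have : (S v)⁻¹ * (S v * y * (S v)⁻¹) * S v = y := by group
      rwa [this]
    · intro hx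
      refine ⟨_, hx, ?_⟩
      show S v * ((S v)⁻¹ * x * S v) * (S v)⁻¹ = x
      group
  refine ⟨fun v => (U0 (R v)).map (MulAut.conj (S v)).toMonoidHom, ?_, ?_, ?_, ?_⟩
  · intro v x hx
    rw [hmem] at hx
    obtain ⟨h1, h2⟩ := hU1 _ hx
    have h3 : S v * ((S v)⁻¹ * x * S v) * (S v)⁻¹ = x := by group
    refine ⟨?_, ?_⟩
    · have := hK.conj_mem _ h1 (S v)
      rwa [h3] at this
    · have h4 := stab_conj (S v) _ (R v) h2
      rw [h3, ← hS v] at h4
      exact h4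
  · intro m v x hx
    rw [hmem] at hx ⊢
    obtain ⟨a, ha⟩ : ∃ a, a = (S (m • v))⁻¹ * m * S v := ⟨_, rfl⟩
    have ha1 : a • R v = R v := by
      rw [ha, mul_smul, ← hS v, mul_smul, hRS, hR]
    have h2 := hU3 (R v) a ha1 _ hx
    rw [hR]
    have h3 : a * ((S v)⁻¹ * x * S v) * a⁻¹ = (S (m • v))⁻¹ * (m * x * m⁻¹) * S (m • v) := by
      rw [ha]
      group
    rwa [h3] at h2
  · intro v
    have h1 : K ⊓ MulAction.stabilizer G v =
        (K ⊓ MulAction.stabilizer G (R v)).map (MulAut.conj (S v)).toMonoidHom := by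
      ext x
      constructor
      · rintro ⟨h1, h2⟩
        refine ⟨(S v)⁻¹ * x * S v, ⟨?_, ?_⟩, ?_⟩
        · have := hK.conj_mem x h1 (S v)⁻¹
          rwa [inv_inv] at this
        · have h3 := stab_conj (S v)⁻¹ x v h2
          rw [hRS, inv_inv] at h3
          exact h3
        · show S v * ((S v)⁻¹ * x * S v) * (S v)⁻¹ = x
          group
      · rintro ⟨y, ⟨h1, h2⟩, rfl⟩
        refine ⟨hK.conj_mem y h1 (S v), ?_⟩
        have h3 := stab_conj (S v) y _ h2
        rw [← hS v] at h3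
        exact h3
    show ((U0 (R v)).map (MulAut.conj (S v)).toMonoidHom).relIndex _ ≠ 0
    rw [h1, Subgroup.relIndex_map_map_of_injective _ _ (MulAut.conj (S v)).injective]
    exact hU2 _
  · intro v w hvw x hx hxw
    rw [hmem] at hx
    have h1 := hact (S v)⁻¹ _ _ hvw
    rw [hRS] at h1
    have h2 := hU4 _ _ h1 _ hx (by
      have h3 := stab_conj (S v)⁻¹ x w hxw
      rwa [inv_inv] at h3)
    have h3 : x = S v * ((S v)⁻¹ * x * S v) * (S v)⁻¹ := by group
    rw [h3, h2, mul_one, mul_inv_cancel]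

/-- a common multiple of an invariant function on a set with finitely many orbits -/
theorem fin_orb {X : Type} [MulAction G X] (Θ : Finset X) (F : X → ℕ)
    (hF : ∀ (g : G) x, F (g • x) = F x) (h0 : ∀ x, F x ≠ 0) :
    ∃ B : ℕ, 0 < B ∧ ∀ x, (∃ g : G, g • x ∈ Θ) → F x ∣ B := by
  refine ⟨∏ θ ∈ Θ, F θ, ?_, ?_⟩
  · rw [Nat.pos_iff_ne_zero, Finset.prod_ne_zero_iff]
    exact fun θ _ => h0 θ
  · rintro x ⟨g, hg⟩
    rw [← hF g x]
    exact Finset.dvd_prod_of_mem F hg

/-- the case of finitely many orbits of edges: a homomorphism to a finite group -/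
theorem exists_pi (hT : T.IsTree)
    (hact : ∀ (g : G) (u v : V), T.Adj u v → T.Adj (g • u) (g • v))
    (c : V → Bool) (hcol : ∀ u v, T.Adj u v → c u ≠ c v) (hcinv : ∀ (m : G) v, c (m • v) = c v)
    (Φ : Finset (V × V)) (hΦ : ∀ x y, T.Adj x y → ∃ h : G, (h • x, h • y) ∈ Φ)
    (ν : G →* Multiplicative ℤ) (U : V → Subgroup G)
    (hU1 : ∀ v, U v ≤ ν.ker ⊓ MulAction.stabilizer G v)
    (hU2 : ∀ (m : G) v x, x ∈ U v → m * x * m⁻¹ ∈ U (m • v))
    (hU3 : ∀ v, (U v).relIndex (ν.ker ⊓ MulAction.stabilizer G v) ≠ 0)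
    (hU4 : ∀ v w, T.Adj v w → ∀ x ∈ U v, x • w = w → x ∈ U w) :
    ∃ (N : ℕ) (π : G →* Equiv.Perm (Fin N)), ∀ (v : V) (a : G), a • v = v → ν a = 1 →
      (π a = 1 ↔ a ∈ U v) := by
  classical
  obtain ⟨o⟩ := hT.connected.nonempty
  obtain ⟨Θ, hΘ⟩ : ∃ Θ : Finset V, Θ = insert o (Φ.image Prod.fst) := ⟨_, rfl⟩
  have hΘ1 : ∀ v : V, ∃ g : G, g • v ∈ Θ := by
    intro v
    by_cases hv : v = o
    · refine ⟨1, ?_⟩
      rw [one_smul, hv, hΘ]
      exact Finset.mem_insert_self _ _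
    · obtain ⟨p⟩ := hT.connected.preconnected v o
      cases p with
      | nil => exact absurd rfl hv
      | @cons _ w _ h p =>
        obtain ⟨g, hg⟩ := hΦ v w h
        refine ⟨g, ?_⟩
        rw [hΘ]
        exact Finset.mem_insert_of_mem (Finset.mem_image.2 ⟨_, hg, rfl⟩)
  have hcj : ∀ (m x : G), ν (m * x * m⁻¹) = ν x := by
    intro m x
    rw [map_mul, map_mul, map_inv, mul_right_comm, mul_inv_cancel, one_mul]
  -- the bound of the indices
  obtain ⟨B, hB, hBi⟩ := fin_orb (G := G) Θ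
    (fun v => (U v).relIndex (ν.ker ⊓ MulAction.stabilizer G v)) (by
      intro m v
      have h1 : ∀ (v : V) (m : G), ν.ker ⊓ MulAction.stabilizer G (m • v) =
          (ν.ker ⊓ MulAction.stabilizer G v).map (MulAut.conj m).toMonoidHom := by
        intro v m
        ext x
        constructor
        · rintro ⟨h1, h2⟩
          refine ⟨m⁻¹ * x * m, ⟨?_, ?_⟩, ?_⟩
          · have h3 : ν x = 1 := h1
            have h4 := hcj m⁻¹ x
            rw [inv_inv, h3] at h4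
            exact h4
          · have h3 := stab_conj m⁻¹ x _ h2
            rw [inv_smul_smul, inv_inv] at h3
            exact h3
          · show m * (m⁻¹ * x * m) * m⁻¹ = x
            group
        · rintro ⟨y, ⟨h1, h2⟩, rfl⟩
          have h3 : ν y = 1 := h1
          exact ⟨(hcj m y).trans h3, stab_conj m y v h2⟩
      have h2 : U (m • v) = (U v).map (MulAut.conj m).toMonoidHom := by
        ext x
        constructor
        · intro hx
          have h3 := hU2 m⁻¹ _ _ hx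
          rw [inv_smul_smul, inv_inv] at h3
          refine ⟨_, h3, ?_⟩
          show m * (m⁻¹ * x * m) * m⁻¹ = x
          group
        · rintro ⟨y, hy, rfl⟩
          exact hU2 m v y hy
      show (U (m • v)).relIndex _ = (U v).relIndex _
      rw [h1, h2, Subgroup.relIndex_map_map_of_injective _ _ (MulAut.conj m).injective]) hU3
  obtain ⟨E, hE⟩ : ∃ E, E = B.factorial * B := ⟨_, rfl⟩
  have hE0 : 0 < E := by
    rw [hE]
    exact Nat.mul_pos (Nat.factorial_pos B) hB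
  -- the values of `ν` on the stabilizers
  have hval : ∀ (X : Type) (_ : MulAction G X) (Θ : Finset X), ∃ κ : ℕ, 0 < κ ∧
      ∀ x : X, (∃ g : G, g • x ∈ Θ) → (∃ y : G, y • x = x ∧ ν y ≠ 1) →
        ∃ y : G, y • x = x ∧ ν y ≠ 1 ∧ Multiplicative.toAdd (ν y) ∣ (κ : ℤ) := by
    intro X _ Θ
    obtain ⟨P, hP⟩ : ∃ P : X → ℕ → Prop, P = fun (x : X) (n : ℕ) => 0 < n ∧ ∃ y : G,
      y • x = x ∧ Multiplicative.toAdd (ν y) = (n : ℤ) := ⟨_, rfl⟩
    have hPinv : ∀ (g : G) x, P (g • x) = P x := by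
      have h1 : ∀ (g : G) x n, P x n → P (g • x) n := by
        intro g x n hn
        rw [hP] at hn ⊢
        obtain ⟨h1, y, h2, h3⟩ := hn
        exact ⟨h1, g * y * g⁻¹, stab_conj g y x h2, by rw [hcj, h3]⟩
      intro g x
      funext n
      apply propext
      refine ⟨fun h => ?_, h1 g x n⟩
      have h2 := h1 g⁻¹ _ n h
      rwa [inv_smul_smul] at h2
    obtain ⟨κ, hκ, hκ'⟩ := fin_orb (G := G) Θ
      (fun x => if ∃ n, P x n then sInf {n | P x n} else 1) (by
        intro g x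
        show (if ∃ n, P (g • x) n then sInf {n | P (g • x) n} else 1) = _
        rw [hPinv]) (by
        intro x
        show (if ∃ n, P x n then sInf {n | P x n} else 1) ≠ 0
        by_cases h : ∃ n, P x n
        · rw [if_pos h]
          have h1 : P x (sInf {n | P x n}) := Nat.sInf_mem h
          rw [hP] at h1
          rw [hP]
          exact h1.1.ne'
        · rw [if_neg h]
          exact one_ne_zero)
    refine ⟨κ, hκ, fun x hx ⟨y, hy, hy1⟩ => ?_⟩
    have h1 : ∃ n, P x n := by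
      have h2 : Multiplicative.toAdd (ν y) ≠ 0 := fun h => hy1 (toAdd_eq_zero.1 h)
      rw [hP]
      rcases lt_or_gt_of_ne h2 with h3 | h3
      · refine ⟨(Multiplicative.toAdd (ν y)).natAbs, Int.natAbs_pos.2 h2, y⁻¹, ?_, ?_⟩
        · exact inv_smul_eq_iff.2 hy.symm
        · rw [map_inv, toAdd_inv]
          omega
      · refine ⟨(Multiplicative.toAdd (ν y)).natAbs, Int.natAbs_pos.2 h2, y, hy, ?_⟩
        omega
    have h2 := hκ' x hx
    have h2 : (if ∃ n, P x n then sInf {n | P x n} else 1) ∣ κ := h2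
    rw [if_pos h1] at h2
    have h3 : P x (sInf {n | P x n}) := Nat.sInf_mem h1
    obtain ⟨n, hn⟩ : ∃ n, n = sInf {n | P x n} := ⟨_, rfl⟩
    rw [← hn] at h2 h3
    rw [hP] at h3
    obtain ⟨h4, y', h5, h6⟩ := h3
    refine ⟨y', h5, ?_, ?_⟩
    · intro h7
      rw [h7, toAdd_one] at h6
      omega
    · rw [h6]
      exact_mod_cast h2
  obtain ⟨κ1, hκ1, hκv⟩ := hval V inferInstance Θ
  obtain ⟨κ2, hκ2, hκe⟩ := hval (V × V) inferInstance Φ
  obtain ⟨κ, hκ⟩ : ∃ κ, κ = E * (κ1 * κ2) := ⟨_, rfl⟩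
  have hκ0 : 0 < κ := by
    rw [hκ]
    exact Nat.mul_pos hE0 (Nat.mul_pos hκ1 hκ2)
  obtain ⟨Z, hZ1, hZ2, hZ3, hZ4⟩ := exists_Z (T := T) ν U B κ hB hU1 hU2
    (fun v => hBi v (hΘ1 v)) hU4 (by
      intro v hv
      obtain ⟨y, h1, h2, h3⟩ := hκv v (hΘ1 v) hv
      refine ⟨y, h1, h2, ?_⟩
      rw [hκ, hE]
      push_cast
      exact mul_dvd_mul_left _ (h3.mul_right _)) (by
      rintro v w hvw ⟨y, hyv, hyw, hy⟩
      obtain ⟨y', h1, h2, h3⟩ := hκe (v, w) (hΦ v w hvw) ⟨y, Prod.ext hyv hyw, hy⟩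
      refine ⟨y', congrArg Prod.fst h1, congrArg Prod.snd h1, h2, ?_⟩
      rw [hκ, hE]
      push_cast
      exact mul_dvd_mul_left _ (h3.mul_left _))
  obtain ⟨π, hπ⟩ := exists_perm hT hact c hcol hcinv (κ * B) (Nat.mul_pos hκ0 hB) hZ1 hZ3
    (fun u v huv a hau hav => hZ4 u v huv a hau hav)
  refine ⟨κ * B, π, fun v a hav ha => ?_⟩
  rw [hπ v a hav, ← hZ2 v]
  exact ⟨fun h => ⟨h, ha⟩, fun h => h.1⟩

/-- the case of finitely many orbits of edges -/
theorem core_fin (hC : ClosedE C) (hT : T.IsTree)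
    (hact : ∀ (g : G) (u v : V), T.Adj u v → T.Adj (g • u) (g • v))
    (c : V → Bool) (hcol : ∀ u v, T.Adj u v → c u ≠ c v) (hcinv : ∀ (m : G) v, c (m • v) = c v)
    (Φ : Finset (V × V)) (hΦ : ∀ x y, T.Adj x y → ∃ h : G, (h • x, h • y) ∈ Φ)
    (ν : G →* Multiplicative ℤ) (hU : HU T ν.ker)
    (hV : ∀ (v : V) (g : G), g • v = v →
      C ↥((ν.ker ⊓ MulAction.stabilizer G v) ⊔ Subgroup.zpowers g)) : C G := by
  obtain ⟨U, hU1, hU2, hU3, hU4⟩ := exists_U hU hact Φ hΦ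
  obtain ⟨N, π, hπ⟩ := exists_pi hT hact c hcol hcinv Φ hΦ ν U hU1 hU2 hU3 (by
    intro v w hvw x hx hxw
    rw [hU4 v w hvw x hx hxw]
    exact (U w).one_mem)
  have hP : C (Equiv.Perm (Fin N) × Multiplicative ℤ) :=
    hC.base.prod _ _ (Pool.Agent.Y430.SS.of_finite hC.base _ inferInstance) hC.base.int
  refine Pool.Agent.N509.TK.crit hC hT hact (π.prod ν) hP ?_ ?_
  · intro u v huv g hgu hgv hg
    have h1 : π g = 1 := congrArg Prod.fst hg
    have h2 : ν g = 1 := congrArg Prod.snd hg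
    exact hU4 u v huv g ((hπ u g hgu h2).1 h1) hgv
  · intro v g hg
    refine C_le hC.base (sup_le_sup_right ?_ _) (hV v g hg)
    rintro x ⟨hx1, hx2⟩
    exact ⟨congrArg Prod.snd hx2, hx1⟩

end

end Pool.Agent.D0H56.FJ
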