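import Pool.Agent.D0H56.FJ.Chain
import Pool.Agent.N77.CP.Fin

/-!
# The torsion of the FC-centre; commensurated subgroups
-/

set_option autoImplicit false

namespace Pool.Agent.D0H56.FJ

open SimpleGraph
open scoped commutatorElement Pointwise
open Pool.Agent.Y110.FJ
open Pool.Agent.N77.CP (Vc mem_Vc VCen Vc_conj Csd TF Mx mem_map_conj exists_SL)
open Pool.Agent.N77.CP.STEP (mem_II II)

variable {C : ∀ (G : Type) [Group G], Prop}

section fc

variable {G : Type} [Group G]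

/-- commutators of elements with centralizers of finite index have finite order -/
theorem comm_tors {P : Type} [Group P] (x y : P) (hx : (Subgroup.centralizer {x}).FiniteIndex)
    (hy : (Subgroup.centralizer {y}).FiniteIndex) : ∃ n : ℕ, 0 < n ∧ (x * y * (y * x)⁻¹) ^ n = 1 := by
  set H : Subgroup P := Subgroup.closure {x, y} with hH
  have hxH : x ∈ H := Subgroup.subset_closure (by simp)
  have hyH : y ∈ H := Subgroup.subset_closure (by simp)
  set C : Subgroup P := Subgroup.centralizer {x} ⊓ Subgroup.centralizer {y} with hCdef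
  have hCf : C.FiniteIndex := inferInstance
  have hle : C.subgroupOf H ≤ Subgroup.center H := by
    intro c hc
    rw [Subgroup.mem_subgroupOf, hCdef, Subgroup.mem_inf, Subgroup.mem_centralizer_singleton_iff,
      Subgroup.mem_centralizer_singleton_iff] at hc
    rw [Subgroup.mem_center_iff]
    intro g
    apply Subtype.ext
    show (g : P) * c = c * g
    have h1 : (g : P) ∈ Subgroup.centralizer {(c : P)} := by
      have h2 : H ≤ Subgroup.centralizer {(c : P)} := by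
        refine (Subgroup.closure_le _).2 fun z hz => ?_
        rw [SetLike.mem_coe, Subgroup.mem_centralizer_singleton_iff]
        rcases hz with rfl | hz
        · exact hc.1.symm
        · rw [Set.mem_singleton_iff] at hz
          rw [hz]
          exact hc.2.symm
      exact h2 g.2
    rw [Subgroup.mem_centralizer_singleton_iff] at h1
    exact h1
  have hfi : (Subgroup.center H).FiniteIndex := Subgroup.finiteIndex_of_le hle
  let φ : H →* Subgroup.center H := MonoidHom.transferCenterPow H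
  let x' : H := ⟨x, hxH⟩
  let y' : H := ⟨y, hyH⟩
  have hcomm : φ y' * φ x' = φ x' * φ y' :=
    Subtype.ext (Subgroup.mem_center_iff.1 (φ x').2 (φ y' : H))
  have h1 : φ (x' * y' * (y' * x')⁻¹) = 1 := by
    rw [map_mul, map_inv, map_mul, map_mul, hcomm, mul_inv_cancel]
  have h2 : ((φ (x' * y' * (y' * x')⁻¹) : Subgroup.center H) : H) =
      (x' * y' * (y' * x')⁻¹) ^ (Subgroup.center H).index :=
    MonoidHom.transferCenterPow_apply _
  rw [h1] at h2
  have h3 : (x * y * (y * x)⁻¹) ^ (Subgroup.center H).index = 1 := by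
    have h4 := congrArg (fun h : H => (h : P)) h2
    exact h4.symm
  exact ⟨_, Nat.pos_of_ne_zero hfi.index_ne_zero, h3⟩

/-- products of elements of finite order with centralizers of finite index have finite order -/
theorem mul_tors {P : Type} [Group P] (x y : P) (hx : (Subgroup.centralizer {x}).FiniteIndex)
    (hy : (Subgroup.centralizer {y}).FiniteIndex) (hxt : ∃ n : ℕ, 0 < n ∧ x ^ n = 1)
    (hyt : ∃ n : ℕ, 0 < n ∧ y ^ n = 1) : ∃ n : ℕ, 0 < n ∧ (x * y) ^ n = 1 := by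
  obtain ⟨n, hn, hxn⟩ := hxt
  obtain ⟨m, hm, hym⟩ := hyt
  have h1 := Pool.Agent.N77.CP.DIE.main P x n hn hxn hx
  have h2 := Pool.Agent.N77.CP.DIE.main P y m hm hym hy
  obtain ⟨A, hA⟩ : ∃ A : Subgroup P, A = Subgroup.normalClosure ({x} : Set P) := ⟨_, rfl⟩
  obtain ⟨B, hB⟩ : ∃ B : Subgroup P, B = Subgroup.normalClosure ({y} : Set P) := ⟨_, rfl⟩
  have hAn : A.Normal := hA ▸ Subgroup.normalClosure_normal
  have hBn : B.Normal := hB ▸ Subgroup.normalClosure_normal
  rw [← hA] at h1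
  rw [← hB] at h2
  have hfin : Finite ↥(A ⊔ B) := by
    have h3 : ((A ⊔ B : Subgroup P) : Set P) = (A : Set P) * (B : Set P) := Subgroup.mul_normal A B
    have h4 : ((A ⊔ B : Subgroup P) : Set P).Finite := by
      rw [h3]
      exact Set.Finite.mul (Set.toFinite _) (Set.toFinite _)
    exact h4
  have hxy : x * y ∈ A ⊔ B := by
    refine Subgroup.mul_mem_sup ?_ ?_
    · rw [hA]
      exact Subgroup.subset_normalClosure rfl
    · rw [hB]
      exact Subgroup.subset_normalClosure rfl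
  obtain ⟨k, hk, h5⟩ := isOfFinOrder_iff_pow_eq_one.1 (isOfFinOrder_of_finite
    (⟨x * y, hxy⟩ : ↥(A ⊔ B)))
  exact ⟨k, hk, congrArg Subtype.val h5⟩

theorem cen_fi {A : Subgroup G} {z : A} (h : (Subgroup.centralizer {(z : G)}).relIndex A ≠ 0) :
    (Subgroup.centralizer {z}).FiniteIndex := by
  refine ⟨?_⟩
  have h6 : (Subgroup.centralizer {(z : G)}).subgroupOf A = Subgroup.centralizer {z} := by
    ext w
    rw [Subgroup.mem_subgroupOf, Subgroup.mem_centralizer_singleton_iff,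
      Subgroup.mem_centralizer_singleton_iff, ← Subtype.coe_inj]
    rfl
  rw [← h6]
  exact h

/-- the elements of finite order of `A` with a centralizer of finite index in `A` -/
def FT (A : Subgroup G) : Subgroup G where
  carrier := {z | z ∈ A ∧ (∃ n : ℕ, 0 < n ∧ z ^ n = 1) ∧
    (Subgroup.centralizer {z}).relIndex A ≠ 0}
  one_mem' := by
    refine ⟨A.one_mem, ⟨1, one_pos, one_pow 1⟩, ?_⟩
    exact (mem_Vc.1 (Vc A).one_mem)
  mul_mem' := by
    rintro x y ⟨hx, hxt, hxc⟩ ⟨hy, hyt, hyc⟩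
    refine ⟨A.mul_mem hx hy, ?_, mem_Vc.1 ((Vc A).mul_mem hxc hyc)⟩
    obtain ⟨n, hn, h1⟩ := mul_tors (⟨x, hx⟩ : A) ⟨y, hy⟩ (cen_fi hxc) (cen_fi hyc)
      (by
        obtain ⟨n, hn, h⟩ := hxt
        exact ⟨n, hn, Subtype.ext h⟩) (by
        obtain ⟨n, hn, h⟩ := hyt
        exact ⟨n, hn, Subtype.ext h⟩)
    exact ⟨n, hn, congrArg Subtype.val h1⟩
  inv_mem' := by
    rintro x ⟨hx, ⟨n, hn, h⟩, hxc⟩
    refine ⟨A.inv_mem hx, ⟨n, hn, by rw [inv_pow, h, inv_one]⟩, mem_Vc.1 ((Vc A).inv_mem hxc)⟩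

theorem mem_FT {A : Subgroup G} {z : G} : z ∈ FT A ↔ z ∈ A ∧ (∃ n : ℕ, 0 < n ∧ z ^ n = 1) ∧
    (Subgroup.centralizer {z}).relIndex A ≠ 0 := Iff.rfl

/-- commutators are in the torsion of the FC-centre -/
theorem II_le_FT {A S : Subgroup G} (hS : S ≤ A)
    (hc : ∀ s ∈ S, (Subgroup.centralizer {s}).relIndex A ≠ 0) : II S ≤ FT A := by
  have h1 : ⁅S, S⁆ ≤ FT A := by
    rw [Subgroup.commutator_le]
    intro x hx y hy
    obtain ⟨n, hn, h⟩ := comm_tors (⟨x, hS hx⟩ : A) ⟨y, hS hy⟩ (cen_fi (hc x hx)) (cen_fi (hc y hy))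
    have h2 : x * y * (y * x)⁻¹ = ⁅x, y⁆ := by
      rw [commutatorElement_def]
      group
    have h3 : ⁅x, y⁆ ∈ S := by
      rw [commutatorElement_def]
      exact S.mul_mem (S.mul_mem (S.mul_mem hx hy) (S.inv_mem hx)) (S.inv_mem hy)
    refine ⟨hS h3, ⟨n, hn, ?_⟩, hc _ h3⟩
    rw [← h2]
    exact congrArg Subtype.val h
  intro x hx
  obtain ⟨hxS, m, hm, h2⟩ := (mem_II S x).1 hx
  obtain ⟨-, ⟨n, hn, h3⟩, -⟩ := h1 h2
  refine ⟨hS hxS, ⟨m * n, Nat.mul_pos hm hn, ?_⟩, hc x hxS⟩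
  rw [pow_mul, h3]

/-- commensurable groups -/
theorem FT_fin {A B : Subgroup G} (hAB : A.relIndex B ≠ 0) (hBA : B.relIndex A ≠ 0)
    (h : Finite (FT A)) : Finite (FT B) := by
  have h1 : FT B ⊓ A ≤ FT A := by
    rintro z ⟨⟨h1, h2, h3⟩, h4⟩
    exact ⟨h4, h2, Subgroup.relIndex_ne_zero_trans h3 hBA⟩
  have h2 : A.relIndex (FT B) ≠ 0 := by
    intro h2
    exact hAB (Subgroup.relIndex_eq_zero_of_le_right (fun z hz => (mem_FT.1 hz).1) h2)
  have h3 : Finite ↥(FT B ⊓ A) := Finite.of_injective _ (Subgroup.inclusion_injective h1)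
  have h4 : (⊥ : Subgroup G).relIndex (FT B) ≠ 0 := by
    have h5 : (FT B ⊓ A).relIndex (FT B) ≠ 0 := by
      rw [Subgroup.inf_relIndex_left]
      exact h2
    have h6 : (⊥ : Subgroup G).relIndex (FT B ⊓ A) ≠ 0 := by
      rw [Subgroup.relIndex_bot_left]
      exact Nat.card_pos.ne'
    exact Subgroup.relIndex_ne_zero_trans h6 h5
  rw [Subgroup.relIndex_bot_left] at h4
  exact Nat.finite_of_card_ne_zero h4

/-- virtually torsion-free groups -/
theorem FT_fin_of_tf {A P : Subgroup G} (hP : P.relIndex A ≠ 0)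
    (htf : ∀ x ∈ P, ∀ n : ℕ, 0 < n → x ^ n = 1 → x = 1) : Finite (FT A) := by
  have h2 : P.relIndex (FT A) ≠ 0 := by
    intro h2
    exact hP (Subgroup.relIndex_eq_zero_of_le_right (fun z hz => (mem_FT.1 hz).1) h2)
  have h3 : P ⊓ FT A = ⊥ := by
    rw [eq_bot_iff]
    rintro z ⟨h3, -, ⟨n, hn, h4⟩, -⟩
    exact Subgroup.mem_bot.2 (htf z h3 n hn h4)
  rw [← Subgroup.inf_relIndex_right, h3, Subgroup.relIndex_bot_left] at h2
  exact Nat.finite_of_card_ne_zero h2

end fc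

section two

variable {G V : Type} [Group G] [MulAction G V] {T : SimpleGraph V}

theorem II_mono {A B : Subgroup G} (h : A ≤ B) : II A ≤ II B := by
  intro x hx
  rw [mem_II] at hx ⊢
  obtain ⟨h1, m, hm, h2⟩ := hx
  exact ⟨h h1, m, hm, Subgroup.commutator_mono h h h2⟩

theorem II_le (A : Subgroup G) : II A ≤ A := fun x hx => ((mem_II A x).1 hx).1

theorem II_conj {A B : Subgroup G} (g : G) (h : ∀ x ∈ A, g * x * g⁻¹ ∈ B) {x : G} (hx : x ∈ II A) :
    g * x * g⁻¹ ∈ II B := by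
  rw [mem_II] at hx ⊢
  obtain ⟨h1, m, hm, h2⟩ := hx
  refine ⟨h x h1, m, hm, ?_⟩
  have h3 : A.map (MulAut.conj g).toMonoidHom ≤ B := by
    rintro _ ⟨y, hy, rfl⟩
    exact h y hy
  have h4 : (⁅A, A⁆).map (MulAut.conj g).toMonoidHom ≤ ⁅B, B⁆ := by
    rw [Subgroup.map_commutator]
    exact Subgroup.commutator_mono h3 h3
  rw [conj_pow]
  exact h4 ⟨_, h2, rfl⟩

/-- the two-step filtration by the kernels of the rational first homology -/
theorem two_step (hC : ClosedE C) (hM : ∀ (G : Type) [Group G], derivedSeries G 2 = ⊥ → C G)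
    (hT : T.IsTree) (hact : ∀ (g : G) (u v : V), T.Adj u v → T.Adj (g • u) (g • v))
    (L : Subgroup G) [hL : L.Normal] (hQ : C (G ⧸ L))
    (hcomp : ∀ v w, T.Adj v w → ∀ x ∈ II (L ⊓ MulAction.stabilizer G v), x • w = w →
      ∃ m : ℕ, 0 < m ∧ x ^ m = 1)
    (h : (∀ v : V, Finite (II (L ⊓ MulAction.stabilizer G v))) ∨
      ((∀ v w, T.Adj v w → ∃ U : Subgroup G, U ≤ II (L ⊓ MulAction.stabilizer G v) ∧
          U.relIndex (II (L ⊓ MulAction.stabilizer G v)) ≠ 0 ∧
          (∀ g : G, g • v = v → ∀ x ∈ U, g * x * g⁻¹ ∈ U) ∧ ∀ x ∈ U, x • w = w → x = 1) ∧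
        ∀ (v : V) (g : G), g • v = v →
          C ↥(II (L ⊓ MulAction.stabilizer G v) ⊔ Subgroup.zpowers g))) : C G := by
  have hconjL : ∀ (g : G) (v : V), ∀ x ∈ L ⊓ MulAction.stabilizer G v,
      g * x * g⁻¹ ∈ L ⊓ MulAction.stabilizer G (g • v) := by
    rintro g v x ⟨h1, h2⟩
    exact ⟨hL.conj_mem x h1 g, stab_conj g x v h2⟩
  have hF0 : Fm T (fun v : V => L ⊓ MulAction.stabilizer G v) :=
    ⟨fun v x hx => hx.2, hconjL, fun v w _ x hx hxw => ⟨hx.1, hxw⟩⟩
  have hF1 : Fm T (fun v : V => II (L ⊓ MulAction.stabilizer G v)) := by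
    refine ⟨fun v x hx => (II_le _ hx).2, fun g v x hx => II_conj g (hconjL g v) hx, ?_⟩
    intro v w hvw x hx hxw
    obtain ⟨m, hm, h1⟩ := hcomp v w hvw x hx hxw
    rw [mem_II]
    refine ⟨⟨(II_le _ hx).1, hxw⟩, m, hm, ?_⟩
    rw [h1]
    exact Subgroup.one_mem _
  have hF2 : Fm T (fun _ : V => (⊥ : Subgroup G)) := by
    refine ⟨?_, ?_, ?_⟩
    · intro v x hx
      rw [Subgroup.mem_bot.1 hx, one_smul]
    · intro g v x hx
      rw [Subgroup.mem_bot.1 hx, mul_one, mul_inv_cancel]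
      exact Subgroup.one_mem _
    · intro v w _ x hx _
      exact hx
  let R : ℕ → V → Subgroup G := fun i v => match i with
    | 0 => L ⊓ MulAction.stabilizer G v
    | 1 => II (L ⊓ MulAction.stabilizer G v)
    | _ => ⊥
  refine chain hC hM 2 hT hact L hQ R (fun _ => rfl) (fun _ => rfl) ?_ ?_ ?_
  · intro i hi
    interval_cases i
    · exact hF0
    · exact hF1
    · exact hF2
  · intro i hi v
    interval_cases i
    · exact II_le _
    · exact bot_le
  · intro i hi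
    interval_cases i
    · left
      intro v x hx
      show x ∈ II _
      rw [mem_II]
      exact ⟨Subgroup.commutator_le_self _ hx, 1, one_pos, by rwa [pow_one]⟩
    · right
      rcases h with h | ⟨hU, hV⟩
      · left
        intro v
        have := h v
        show (⊥ : Subgroup G).relIndex (II (L ⊓ MulAction.stabilizer G v)) ≠ 0
        rw [Subgroup.relIndex_bot_left]
        exact Nat.card_pos.ne'
      · right
        refine ⟨?_, ?_⟩
        · intro v w hvw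
          obtain ⟨U, h1, h2, h3, h4⟩ := hU v w hvw
          exact ⟨U, bot_le, h1, h2, h3, fun x hx hxw => Subgroup.mem_bot.2 (h4 x hx hxw)⟩
        · intro v g hg
          refine ⟨_, inferInstance, MonoidHom.id _, hV v g hg, fun x => ?_⟩
          show x = 1 ↔ (x : G) ∈ (⊥ : Subgroup G)
          rw [Subgroup.mem_bot]
          exact ⟨fun h => congrArg Subtype.val h, fun h => Subtype.ext h⟩

end two

section comm

variable {G V : Type} [Group G] [MulAction G V] {T : SimpleGraph V}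

/-- representations of the commensurator -/
theorem exists_rho (hC : ClosedE C) (hM : ∀ (G : Type) [Group G], derivedSeries G 2 = ⊥ → C G)
    (E : Subgroup G) (hE : Csd E)
    (h : C (Pool.Agent.N24.CM.Comm E) ∨ ((∀ m : ℕ, C (Matrix.GeneralLinearGroup (Fin m) ℚ)) ∧
      ∃ P : Subgroup G, P ≤ E ∧ P.relIndex E ≠ 0 ∧ Group.IsSolvable P ∧ Mx P ∧ TF P)) :
    ∃ (Q : Type) (_ : Group Q) (ρ : G →* Q), C Q ∧ ∀ g, ρ g = 1 → VCen E g := by
  rcases h with h | ⟨hL, P, hP, hPi, hPs, hPm, hPt⟩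
  · have hH : ∀ g : G, (Pool.Agent.N24.CM.dom E g).FiniteIndex := by
      intro g
      refine ⟨?_⟩
      have h1 := hE g⁻¹
      have h2 : Pool.Agent.N24.CM.dom E g =
          (E.map (MulAut.conj g⁻¹).toMonoidHom).subgroupOf E := by
        ext x
        rw [Pool.Agent.N24.CM.mem_dom, Subgroup.mem_subgroupOf, mem_map_conj, inv_inv]
      rw [h2]
      exact h1
    exact ⟨_, inferInstance, Pool.Agent.N24.CM.toComm E hH, h, fun g hg =>
      Pool.Agent.N24.CM.of_toComm E hH hg⟩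
  · obtain ⟨n, hn⟩ := exists_SL hPs
    obtain ⟨Q, _, ρ, hCQ, hρ⟩ := Pool.Agent.N77.CP.ind hC hM hL
      (Pool.Agent.N77.CP.HBS.main Pool.Agent.N77.CP.HBX.main) Pool.Agent.N77.CP.MIN.main
      (Pool.Agent.N77.CP.REP.main Pool.Agent.N77.CP.EXT.main) Pool.Agent.N77.CP.ISO.main
      (Pool.Agent.N77.CP.STEP.main Pool.Agent.N77.CP.FC.main) n G P (hE.of_le hP hPi) hPt hPm hPs hn
    exact ⟨Q, inferInstance, ρ, hCQ, fun g hg => Pool.Agent.N77.CP.VCen.of_fin hPi (hρ g hg)⟩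

theorem C_inf (hC : ClosedE C) (N : Subgroup G) [N.Normal] (hQ : C (G ⧸ N)) {Q : Type} [Group Q]
    (ρ : G →* Q) (hCQ : C Q) : C (G ⧸ (N ⊓ ρ.ker)) := by
  have h1 : N ⊓ ρ.ker = ((QuotientGroup.mk' N).prod ρ).ker := by
    ext x
    rw [Subgroup.mem_inf, MonoidHom.mem_ker, MonoidHom.mem_ker]
    constructor
    · rintro ⟨h1, h2⟩
      exact Prod.ext ((QuotientGroup.eq_one_iff x).2 h1) h2
    · intro h
      exact ⟨(QuotientGroup.eq_one_iff x).1 (congrArg Prod.fst h), congrArg Prod.snd h⟩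
  have h2 : C (G ⧸ ((QuotientGroup.mk' N).prod ρ).ker) :=
    hC.base.of_injective _ _ (QuotientGroup.kerLift _) (QuotientGroup.kerLift_injective _)
      (hC.base.prod _ _ hQ hCQ)
  exact Pool.Agent.R941.FJ.C_equiv hC.base (QuotientGroup.quotientMulEquivOfEq h1) h2

/-- **commensurated subgroups and vertex groups** -/
theorem edge_thm (hC : ClosedE C) (hM : ∀ (G : Type) [Group G], derivedSeries G 2 = ⊥ → C G)
    (hT : T.IsTree) (hact : ∀ (g : G) (u v : V), T.Adj u v → T.Adj (g • u) (g • v))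
    (N : Subgroup G) [hN : N.Normal] (hQ : C (G ⧸ N)) (E : Subgroup G)
    {Q : Type} [Group Q] (ρ : G →* Q) (hCQ : C Q) (hρ : ∀ g, ρ g = 1 → VCen E g)
    (hU : ∀ v w, T.Adj v w → ∃ U : Subgroup G, U ≤ II ((N ⊓ MulAction.stabilizer G v) ⊓ Vc E) ∧
      U.relIndex (II ((N ⊓ MulAction.stabilizer G v) ⊓ Vc E)) ≠ 0 ∧
      (∀ g : G, g • v = v → ∀ x ∈ U, g * x * g⁻¹ ∈ U) ∧ ∀ x ∈ U, x • w = w → x = 1)
    (hV : ∀ (v : V) (g : G), g • v = v →
      C ↥(II ((N ⊓ MulAction.stabilizer G v) ⊓ Vc E) ⊔ Subgroup.zpowers g)) : C G := by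
  obtain ⟨L, hLd⟩ : ∃ L : Subgroup G, L = N ⊓ ρ.ker := ⟨_, rfl⟩
  have hLn : L.Normal := by
    rw [hLd]
    infer_instance
  have hQL : C (G ⧸ L) := by
    subst hLd
    exact C_inf hC N hQ ρ hCQ
  have hle : ∀ v : V, L ⊓ MulAction.stabilizer G v ≤ (N ⊓ MulAction.stabilizer G v) ⊓ Vc E := by
    intro v x hx
    rw [hLd] at hx
    exact ⟨⟨hx.1.1, hx.2⟩, mem_Vc.2 (hρ x hx.1.2)⟩
  have hII : ∀ v : V, II (L ⊓ MulAction.stabilizer G v) ≤
      II ((N ⊓ MulAction.stabilizer G v) ⊓ Vc E) := fun v => II_mono (hle v)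
  have hLconj : ∀ (g : G) (v : V), g • v = v → ∀ x ∈ L ⊓ MulAction.stabilizer G v,
      g * x * g⁻¹ ∈ L ⊓ MulAction.stabilizer G v := by
    rintro g v hg x ⟨h1, h2⟩
    refine ⟨hLn.conj_mem x h1 g, ?_⟩
    have := stab_conj g x v h2
    rwa [hg] at this
  refine two_step hC hM hT hact L hQL ?_ (Or.inr ⟨?_, ?_⟩)
  · intro v w hvw x hx hxw
    obtain ⟨U, h1, h2, -, h4⟩ := hU v w hvw
    obtain ⟨m, hm, -, h5⟩ := Subgroup.exists_pow_mem_of_relIndex_ne_zero h2 (hII v hx)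
    refine ⟨m, hm, h4 _ h5.1 ?_⟩
    exact (MulAction.stabilizer G w).pow_mem hxw m
  · intro v w hvw
    obtain ⟨U, h1, h2, h3, h4⟩ := hU v w hvw
    refine ⟨U ⊓ II (L ⊓ MulAction.stabilizer G v), inf_le_right, ?_, ?_, ?_⟩
    · rw [Subgroup.inf_relIndex_right]
      exact fun h => h2 (Subgroup.relIndex_eq_zero_of_le_right (hII v) h)
    · rintro g hg x ⟨hx1, hx2⟩
      exact ⟨h3 g hg x hx1, II_conj g (hLconj g v hg) hx2⟩
    · rintro x ⟨hx1, -⟩ hxw
      exact h4 x hx1 hxw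
  · intro v g hg
    exact Pool.Agent.R941.FJ.C_le hC.base (sup_le_sup_right (hII v) _) (hV v g hg)

/-- **commensurable vertex groups** -/
theorem vertex_thm (hC : ClosedE C) (hM : ∀ (G : Type) [Group G], derivedSeries G 2 = ⊥ → C G)
    (hT : T.IsTree) (hact : ∀ (g : G) (u v : V), T.Adj u v → T.Adj (g • u) (g • v))
    (N : Subgroup G) [hN : N.Normal] (hQ : C (G ⧸ N))
    (hfin : ∀ x y : V, T.Adj x y →
      (N ⊓ MulAction.stabilizer G x).relIndex (N ⊓ MulAction.stabilizer G y) ≠ 0)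
    (o : V) (hFT : Finite (FT (N ⊓ MulAction.stabilizer G o)))
    {Q : Type} [Group Q] (ρ : G →* Q) (hCQ : C Q)
    (hρ : ∀ g, ρ g = 1 → VCen (N ⊓ MulAction.stabilizer G o) g) : C G := by
  obtain ⟨L, hLd⟩ : ∃ L : Subgroup G, L = N ⊓ ρ.ker := ⟨_, rfl⟩
  have hLn : L.Normal := by
    rw [hLd]
    infer_instance
  have hQL : C (G ⧸ L) := by
    subst hLd
    exact C_inf hC N hQ ρ hCQ
  have hcom := Pool.Agent.N24.CM.commensurable hT.1 (fun x => N ⊓ MulAction.stabilizer G x) hfin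
  have hII : ∀ v : V, II (L ⊓ MulAction.stabilizer G v) ≤ FT (N ⊓ MulAction.stabilizer G v) := by
    intro v
    refine II_le_FT ?_ ?_
    · intro x hx
      rw [hLd] at hx
      exact ⟨hx.1.1, hx.2⟩
    · intro x hx
      rw [hLd] at hx
      have h1 : VCen (N ⊓ MulAction.stabilizer G o) x := hρ x hx.1.2
      exact Subgroup.relIndex_ne_zero_trans h1 (hcom o v)
  refine two_step hC hM hT hact L hQL ?_ (Or.inl ?_)
  · intro v w _ x hx _
    exact (hII v hx).2.1
  · intro v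
    have h1 : Finite (FT (N ⊓ MulAction.stabilizer G v)) := FT_fin (hcom o v) (hcom v o) hFT
    exact Finite.of_injective _ (Subgroup.inclusion_injective (hII v))

end comm

end Pool.Agent.D0H56.FJ
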