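import Pool.Agent.D0H56.FJ.Core

/-!
# Homomorphisms with residually finite kernels on the vertex groups: the general case
-/

set_option autoImplicit false

namespace Pool.Agent.D0H56.FJ

open SimpleGraph
open Pool.Agent.Y110.FJ
open Pool.Agent.N24.TR (gam gam_map gam_mul gam_self gam_adj gam_eq)
open Pool.Agent.N509.TX (STree fg_subtree of_fg)
open Pool.Agent.R941.FJ (C_equiv C_le C_cyc mem_sup_normal)

variable {C : ∀ (G : Type) [Group G], Prop}

/-- the cyclic extensions of the vertex groups of `K` are in the class -/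
def HV (C : ∀ (G : Type) [Group G], Prop) {G : Type} (V : Type) [Group G] [MulAction G V]
    (K : Subgroup G) : Prop :=
  ∀ (v : V) (g : G), g • v = v → C ↥((K ⊓ MulAction.stabilizer G v) ⊔ Subgroup.zpowers g)

theorem C_sub (hC : ClosedE C) {G : Type} [Group G] {H : Subgroup G} {A : Subgroup H}
    {K : Subgroup G} (h : A.map H.subtype ≤ K) (hK : C K) : C A := by
  refine hC.base.of_injective _ _ ((H.subtype.comp A.subtype).codRestrict K fun x =>
    h ⟨x, x.2, rfl⟩) ?_ hK
  intro a b hab
  have h1 := congrArg Subtype.val hab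
  exact Subtype.ext (Subtype.ext h1)

section

variable {G V : Type} [Group G] [MulAction G V] {T : SimpleGraph V}

theorem HV.sub (hC : ClosedE C) {K : Subgroup G} (h : HV C V K) (H : Subgroup G) :
    HV C V (K.subgroupOf H) := by
  intro v g hg
  refine C_sub hC ?_ (h v (g : G) hg)
  rw [Subgroup.map_sup]
  refine sup_le_sup ?_ ?_
  · rintro _ ⟨y, hy, rfl⟩
    exact hy
  · rw [MonoidHom.map_zpowers]
    exact le_rfl

theorem HV.stree {K : Subgroup G} (h : HV C V K) {W : Type} [MulAction G W] {T' : SimpleGraph W}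
    {ι : W → V} (hS : STree G T T' ι) : HV C W K := by
  intro w g hg
  rw [hS.stab w]
  exact h (ι w) g (hS.fix.1 hg)

theorem ker_comp (ν : G →* Multiplicative ℤ) (H : Subgroup G) :
    (ν.comp H.subtype).ker = ν.ker.subgroupOf H := by
  ext x
  exact Iff.rfl

/-- finitely generated groups which preserve the colours -/
theorem core_fg (hC : ClosedE C) (hfg : Group.FG G) (hT : T.IsTree)
    (hact : ∀ (g : G) (u v : V), T.Adj u v → T.Adj (g • u) (g • v))
    (c : V → Bool) (hcol : ∀ u v, T.Adj u v → c u ≠ c v) (hcinv : ∀ (m : G) v, c (m • v) = c v)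
    (ν : G →* Multiplicative ℤ) (hU : HU T ν.ker) (hV : HV C V ν.ker) : C G := by
  classical
  obtain ⟨o⟩ := hT.connected.nonempty
  obtain ⟨W, iW, T', ι, Φ, hS, -, -, hΦ⟩ := fg_subtree hT hact hfg o
  have hinj : Function.Injective (Prod.map ι ι) := hS.inj.prodMap hS.inj
  refine core_fin hC hS.tree hS.act (fun w => c (ι w)) (fun x y h => hcol _ _ (hS.adj x y h))
    (fun m w => ?_) ((Φ ∪ Φ.image Prod.swap).preimage (Prod.map ι ι) hinj.injOn) ?_ ν (hU.stree hS)
    (hV.stree hS)
  · show c (ι (m • w)) = c (ι w)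
    rw [hS.eqv, hcinv]
  · intro x y hxy
    obtain ⟨h, hh⟩ := hΦ x y hxy
    refine ⟨h, ?_⟩
    rw [Finset.mem_preimage, Finset.mem_union]
    show (ι (h • x), ι (h • y)) ∈ Φ ∨ (ι (h • x), ι (h • y)) ∈ Φ.image Prod.swap
    rw [hS.eqv, hS.eqv]
    rcases hh with hh | hh
    · exact Or.inl hh
    · exact Or.inr (Finset.mem_image.2 ⟨_, hh, rfl⟩)

/-- groups which preserve the colours -/
theorem core_col (hC : ClosedE C) (hT : T.IsTree)
    (hact : ∀ (g : G) (u v : V), T.Adj u v → T.Adj (g • u) (g • v))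
    (c : V → Bool) (hcol : ∀ u v, T.Adj u v → c u ≠ c v) (hcinv : ∀ (m : G) v, c (m • v) = c v)
    (ν : G →* Multiplicative ℤ) (hU : HU T ν.ker) (hV : HV C V ν.ker) : C G := by
  refine of_fg hC fun H hH => ?_
  refine core_fg (G := H) hC hH hT (fun g u v h => hact g u v h) c hcol (fun m v => hcinv m v)
    (ν.comp H.subtype) ?_ ?_
  · rw [ker_comp]
    exact hU.sub H
  · rw [ker_comp]
    exact hV.sub hC H

/-- **one homomorphism to `ℤ`** -/
theorem core_gen (hC : ClosedE C) (hT : T.IsTree)
    (hact : ∀ (g : G) (u v : V), T.Adj u v → T.Adj (g • u) (g • v))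
    (ν : G →* Multiplicative ℤ) (hU : HU T ν.ker) (hV : HV C V ν.ker) : C G := by
  classical
  obtain ⟨o⟩ := hT.connected.nonempty
  -- the parity
  obtain ⟨par, hpar⟩ : ∃ par : V → V → Multiplicative (ZMod 2),
      par = fun _ _ => Multiplicative.ofAdd (1 : ZMod 2) := ⟨_, rfl⟩
  have hp : ∀ u v, T.Adj u v → par u v * par v u = 1 := by
    intro u v h
    rw [hpar]
    show Multiplicative.ofAdd (1 : ZMod 2) * Multiplicative.ofAdd (1 : ZMod 2) = 1
    decide
  have hpm : ∀ (g : G) (u v : V), gam hT par (g • u) (g • v) = gam hT par u v := fun g u v =>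
    gam_map hT hact par hp g (MonoidHom.id _) (fun _ _ => by rw [hpar]; rfl) u v
  let τ : G →* Multiplicative (ZMod 2) := MonoidHom.mk' (fun g => gam hT par o (g • o)) (by
    intro g h
    rw [mul_smul, ← gam_mul hT par hp o (g • o) (g • h • o), hpm])
  refine hC.base.finiteIndex G τ.ker ?_ ?_
  · refine ⟨?_⟩
    rw [Subgroup.index_ker]
    exact Nat.card_pos.ne'
  · refine core_col (G := τ.ker) hC hT (fun g u v h => hact g u v h)
      (fun v => decide (gam hT par o v = 1)) ?_ ?_ (ν.comp τ.ker.subtype) ?_ ?_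
    · intro u v huv
      show decide (gam hT par o u = 1) ≠ decide (gam hT par o v = 1)
      rw [← gam_mul hT par hp o u v, gam_adj hT par hp huv, hpar]
      generalize gam hT (fun _ _ => Multiplicative.ofAdd (1 : ZMod 2)) o u = a
      show decide (a = 1) ≠ decide (a * Multiplicative.ofAdd (1 : ZMod 2) = 1)
      revert a
      decide
    · intro m v
      show decide (gam hT par o ((m : G) • v) = 1) = decide (gam hT par o v = 1)
      have h1 : gam hT par o ((m : G) • o) = 1 := m.2
      rw [← gam_mul hT par hp o ((m : G) • o) ((m : G) • v), h1, one_mul, hpm]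
    · rw [ker_comp]
      exact hU.sub _
    · rw [ker_comp]
      exact hV.sub hC _

/-- **one homomorphism to a group in the class** -/
theorem one_hom (hC : ClosedE C) (hT : T.IsTree)
    (hact : ∀ (g : G) (u v : V), T.Adj u v → T.Adj (g • u) (g • v))
    {P : Type} [Group P] (f : G →* P) (hP : C P) (hU : HU T f.ker) (hV : HV C V f.ker) : C G := by
  have key : ∀ (M : Subgroup G) (ν : M →* Multiplicative ℤ), ν.ker = f.ker.subgroupOf M → C M := by
    intro M ν hν
    refine core_gen (G := M) hC hT (fun g u v h => hact g u v h) ν ?_ ?_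
    · rw [hν]
      exact hU.sub M
    · rw [hν]
      exact hV.sub hC M
  have hQ : C (G ⧸ f.ker) :=
    hC.base.of_injective _ _ (QuotientGroup.kerLift f) (QuotientGroup.kerLift_injective _) hP
  refine Pool.Agent.Y529.FJ.t_ext C hC G f.ker ?_ hQ fun g hg => ?_
  · refine key f.ker 1 ?_
    rw [Subgroup.subgroupOf_self, MonoidHom.ker_one]
  · have hinj : Function.Injective (zpowersHom P (f g)) := by
      rw [injective_iff_map_eq_one]
      intro n hn
      have h1 : f g ^ Multiplicative.toAdd n = 1 := hn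
      by_contra hne
      have h2 : Multiplicative.toAdd n ≠ 0 := fun h => hne (toAdd_eq_zero.1 h)
      refine hg (Multiplicative.toAdd n).natAbs (Int.natAbs_pos.2 h2) ?_
      rw [MonoidHom.mem_ker, map_pow]
      rcases Int.natAbs_eq (Multiplicative.toAdd n) with h3 | h3
      · rw [h3, zpow_natCast] at h1
        exact h1
      · rw [h3, zpow_neg, zpow_natCast, inv_eq_one] at h1
        exact h1
    obtain ⟨M, hM⟩ : ∃ M : Subgroup G, M = f.ker ⊔ Subgroup.zpowers g := ⟨_, rfl⟩
    rw [← hM]
    have hr : ∀ x : M, f x ∈ (zpowersHom P (f g)).range := by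
      rintro ⟨x, hx⟩
      rw [hM] at hx
      obtain ⟨a, ha, _, ⟨i, rfl⟩, rfl⟩ := mem_sup_normal.1 hx
      refine ⟨Multiplicative.ofAdd i, ?_⟩
      have ha : f a = 1 := ha
      show f g ^ i = f (a * g ^ i)
      rw [map_mul, ha, one_mul, map_zpow]
    refine key M ((MonoidHom.ofInjective hinj).symm.toMonoidHom.comp
      ((f.comp M.subtype).codRestrict (zpowersHom P (f g)).range hr)) ?_
    ext x
    rw [MonoidHom.mem_ker, Subgroup.mem_subgroupOf, MonoidHom.mem_ker]
    show (MonoidHom.ofInjective hinj).symm _ = 1 ↔ _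
    rw [EmbeddingLike.map_eq_one_iff]
    exact ⟨fun h => congrArg Subtype.val h, fun h => Subtype.ext h⟩

end

end Pool.Agent.D0H56.FJ
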