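import Pool.Agent.D0H56.FJ.Sys
import Pool.Agent.N509.TK.Hol

/-!
# Compatible families of normal subgroups of the vertex groups

A compatible equivariant family `Z v` of subgroups of the vertex groups is the family of the stabilizers
of the subgroup which it generates.
-/

set_option autoImplicit false

namespace Pool.Agent.D0H56.FJ

open SimpleGraph
open Pool.Agent.N24.TR (gam gam_map gam_mul gam_self gam_adj gam_eq)
open scoped Cardinal

section free

variable {A X : Type} [Group A]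

/-- free actions with the same number of orbits are isomorphic -/
theorem intertwine_gen (ρ ρ' : A →* Equiv.Perm X) (Z : Subgroup A)
    (h : ∀ a x, ρ a x = x ↔ a ∈ Z) (h' : ∀ a x, ρ' a x = x ↔ a ∈ Z)
    (β : Quotient (orb ρ) ≃ Quotient (orb ρ')) :
    ∃ σ : Equiv.Perm X, ∀ a, σ * ρ a = ρ' a * σ := by
  classical
  have hrep : ∀ x : X, ∃ a : A, ρ a (Quotient.mk (orb ρ) x).out = x := by
    intro x
    exact Quotient.exact (Quotient.out_eq (Quotient.mk (orb ρ) x))
  choose a ha using hrep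
  obtain ⟨s, hs⟩ : ∃ s : X → X, s = fun x => ρ' (a x) (β (Quotient.mk (orb ρ) x)).out := ⟨_, rfl⟩
  have hZfix : ∀ c ∈ Z, ∀ (y : X), ρ' c y = y := fun c hc y => (h' c y).2 hc
  have hkey : ∀ (b : A) (x : X), s (ρ b x) = ρ' b (s x) := by
    intro b x
    have h1 : Quotient.mk (orb ρ) (ρ b x) = Quotient.mk (orb ρ) x := by
      symm
      exact Quotient.sound ⟨b, rfl⟩
    rw [hs]
    show ρ' (a (ρ b x)) (β (Quotient.mk (orb ρ) (ρ b x))).out =
      ρ' b (ρ' (a x) (β (Quotient.mk (orb ρ) x)).out)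
    rw [h1, ← Equiv.Perm.mul_apply, ← map_mul]
    have h2 : (b * a x)⁻¹ * a (ρ b x) ∈ Z := by
      refine (h _ (Quotient.mk (orb ρ) x).out).1 ?_
      rw [map_mul, Equiv.Perm.mul_apply, map_inv, Equiv.Perm.inv_eq_iff_eq]
      have h3 := ha (ρ b x)
      rw [h1] at h3
      rw [h3, map_mul, Equiv.Perm.mul_apply, ha x]
    have h3 := hZfix _ h2 (β (Quotient.mk (orb ρ) x)).out
    rw [map_mul, Equiv.Perm.mul_apply, map_inv, Equiv.Perm.inv_eq_iff_eq] at h3
    exact h3
  have hinj : Function.Injective s := by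
    intro x y hxy
    rw [hs] at hxy
    have hxy : ρ' (a x) (β (Quotient.mk (orb ρ) x)).out = ρ' (a y) (β (Quotient.mk (orb ρ) y)).out :=
      hxy
    have h1 : β (Quotient.mk (orb ρ) x) = β (Quotient.mk (orb ρ) y) := by
      rw [← Quotient.out_eq (β (Quotient.mk (orb ρ) x)), ← Quotient.out_eq (β (Quotient.mk (orb ρ) y))]
      refine Quotient.sound ⟨(a y)⁻¹ * a x, ?_⟩
      rw [map_mul, Equiv.Perm.mul_apply, hxy, map_inv, iself]
    have h2 := β.injective h1
    rw [h2] at hxy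
    have h3 : (a y)⁻¹ * a x ∈ Z := by
      refine (h' _ (β (Quotient.mk (orb ρ) y)).out).1 ?_
      rw [map_mul, Equiv.Perm.mul_apply, hxy, map_inv, iself]
    have h4 := (h _ (Quotient.mk (orb ρ) y).out).2 h3
    rw [map_mul, Equiv.Perm.mul_apply, map_inv, Equiv.Perm.inv_eq_iff_eq] at h4
    rw [ha y, ← h2, ha x] at h4
    exact h4
  have hsurj : Function.Surjective s := by
    intro y
    obtain ⟨q, hq⟩ := β.surjective (Quotient.mk (orb ρ') y)
    obtain ⟨b, hb⟩ : (orb ρ').r (Quotient.mk (orb ρ') y).out y :=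
      Quotient.exact (Quotient.out_eq (Quotient.mk (orb ρ') y))
    refine ⟨ρ b q.out, ?_⟩
    rw [hkey, hs]
    show ρ' b (ρ' (a q.out) (β (Quotient.mk (orb ρ) q.out)).out) = y
    have h1 : Quotient.mk (orb ρ) q.out = q := Quotient.out_eq q
    have h2 : ρ (a q.out) q.out = q.out := by
      have := ha q.out
      rwa [h1] at this
    rw [h1, hq, hZfix _ ((h _ _).1 h2), hb]
  exact ⟨Equiv.ofBijective s ⟨hinj, hsurj⟩, fun b => Equiv.ext fun x => hkey b x⟩

/-- there are as many orbits as points -/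
def Ample (ρ : A →* Equiv.Perm X) : Prop :=
  ∃ p : X → X, Function.Surjective p ∧ ∀ a x, p (ρ a x) = p x

theorem Ample.card {ρ : A →* Equiv.Perm X} (h : Ample ρ) : #(Quotient (orb ρ)) = #X := by
  obtain ⟨p, hp, hp'⟩ := h
  apply le_antisymm
  · exact Cardinal.mk_le_of_surjective (f := Quotient.mk (orb ρ)) Quotient.mk_surjective
  · refine Cardinal.mk_le_of_surjective (f := Quotient.lift p ?_) ?_
    · rintro x y ⟨a, rfl⟩
      exact (hp' a x).symm
    · intro y
      obtain ⟨x, rfl⟩ := hp y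
      exact ⟨Quotient.mk _ x, rfl⟩

/-- a free action with many orbits -/
theorem free_rep_inf (Z : Subgroup A) [Z.Normal] (Y : Type) [Infinite Y] (hY : #(A ⧸ Z) ≤ #Y) :
    ∃ ρ : A →* Equiv.Perm Y, (∀ a x, ρ a x = x ↔ a ∈ Z) ∧
      ∃ p : Y → Y, Function.Surjective p ∧ ∀ a x, p (ρ a x) = p x := by
  classical
  have h0 : #(A ⧸ Z) ≠ 0 := Cardinal.mk_ne_zero _
  have h1 : #((A ⧸ Z) × Y) = #Y := by
    rw [Cardinal.mk_prod, Cardinal.lift_id, Cardinal.lift_id]
    exact Cardinal.mul_eq_right (Cardinal.aleph0_le_mk Y) hY h0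
  obtain ⟨φ⟩ := Cardinal.eq.1 h1
  let ρ0 : A →* Equiv.Perm ((A ⧸ Z) × Y) :=
    { toFun := fun a => (Equiv.mulLeft (a : A ⧸ Z)).prodCongr (Equiv.refl _)
      map_one' := by
        apply Equiv.ext
        rintro ⟨x, y⟩
        exact Prod.ext (one_mul x) rfl
      map_mul' := by
        intro a b
        apply Equiv.ext
        rintro ⟨x, y⟩
        exact Prod.ext (mul_assoc (a : A ⧸ Z) (b : A ⧸ Z) x) rfl }
  have h2 : ∀ a q y, (((φ.permCongrHom).toMonoidHom.comp ρ0) a) (φ (q, y)) =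
      φ ((a : A ⧸ Z) * q, y) := by
    intro a q y
    show φ (ρ0 a (φ.symm (φ (q, y)))) = _
    rw [Equiv.symm_apply_apply]
    rfl
  refine ⟨(φ.permCongrHom).toMonoidHom.comp ρ0, fun a x => ?_, fun x => (φ.symm x).2, ?_, ?_⟩
  · obtain ⟨⟨q, y⟩, rfl⟩ := φ.surjective x
    rw [h2, φ.injective.eq_iff, Prod.mk.injEq]
    constructor
    · rintro ⟨h2, -⟩
      have h3 : (a : A ⧸ Z) = 1 := mul_eq_right.1 h2
      exact (QuotientGroup.eq_one_iff a).1 h3
    · intro h2
      have h3 : (a : A ⧸ Z) = 1 := (QuotientGroup.eq_one_iff a).2 h2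
      exact ⟨by rw [h3, one_mul], rfl⟩
  · intro y
    refine ⟨φ (1, y), ?_⟩
    show (φ.symm (φ (1, y))).2 = y
    rw [Equiv.symm_apply_apply]
  · intro a x
    obtain ⟨⟨q, y⟩, rfl⟩ := φ.surjective x
    show (φ.symm _).2 = (φ.symm _).2
    rw [h2, Equiv.symm_apply_apply, Equiv.symm_apply_apply]

end free

section main

variable {M V : Type} [Group M] [MulAction M V] {T : SimpleGraph V} {Z : V → Subgroup M}

/-- twistings exist, with infinite sets -/
theorem Twist.ex_inf (Y : Type) [Infinite Y] (hY : #M ≤ #Y) (Z : V → Subgroup M)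
    (hc : ∀ (m : M) v x, x ∈ Z v → m * x * m⁻¹ ∈ Z (m • v)) :
    ∃ D : Twist M V Y Z, ∀ v, ∃ p : Y → Y, Function.Surjective p ∧
      ∀ a : M, a • v = v → ∀ x, p (D.th a v x) = p x := by
  classical
  have h1 : ∀ v, ∃ ρ : MulAction.stabilizer M v →* Equiv.Perm Y,
      (∀ a x, ρ a x = x ↔ a ∈ (Z v).subgroupOf (MulAction.stabilizer M v)) ∧
      ∃ p : Y → Y, Function.Surjective p ∧ ∀ a x, p (ρ a x) = p x := by
    intro v
    have : ((Z v).subgroupOf (MulAction.stabilizer M v)).Normal := by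
      refine ⟨fun n hn g => ?_⟩
      rw [Subgroup.mem_subgroupOf] at hn ⊢
      have h2 := hc g v _ hn
      have h3 : (g : M) • v = v := g.2
      rw [h3] at h2
      exact h2
    refine free_rep_inf _ Y (le_trans ?_ hY)
    refine (Cardinal.mk_le_of_surjective (QuotientGroup.mk_surjective
      (s := (Z v).subgroupOf (MulAction.stabilizer M v)))).trans ?_
    exact Cardinal.mk_le_of_injective (Subgroup.subtype_injective (MulAction.stabilizer M v))
  choose ρ hρ p hp hp' using h1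
  obtain ⟨R, S, hS, hR⟩ := reps M V
  obtain ⟨D, hDr, hDs, hDρ⟩ : ∃ D : Twist M V Y Z, D.r = R ∧ D.s = S ∧
      ∀ v (m : M) (h : m ∈ MulAction.stabilizer M v), D.ρ v m = ρ v ⟨m, h⟩ := by
    refine ⟨{ r := R
              s := S
              ρ := fun v m => if h : m ∈ MulAction.stabilizer M v then ρ v ⟨m, h⟩ else 1
              eq := hS
              inv := hR
              hom := ?_
              free := ?_
              conj := hc }, rfl, rfl, ?_⟩
    · intro v x hx y hy
      show (if h : x * y ∈ MulAction.stabilizer M v then ρ v ⟨x * y, h⟩ else 1) =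
        (if h : x ∈ MulAction.stabilizer M v then ρ v ⟨x, h⟩ else 1) *
        (if h : y ∈ MulAction.stabilizer M v then ρ v ⟨y, h⟩ else 1)
      rw [dif_pos hx, dif_pos hy, dif_pos (mul_mem hx hy), ← map_mul]
      rfl
    · intro v a ha x
      show (if h : a ∈ MulAction.stabilizer M v then ρ v ⟨a, h⟩ else 1) x = x ↔ _
      rw [dif_pos ha, hρ v ⟨a, ha⟩ x]
      exact Subgroup.mem_subgroupOf
    · intro v m h
      exact dif_pos h
  refine ⟨D, fun v => ⟨p (D.r v), hp (D.r v), fun a ha x => ?_⟩⟩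
  unfold Twist.th
  rw [hDρ _ _ (D.mm_mem a v)]
  exact hp' _ _ _

/-- homomorphisms with prescribed kernels on the vertex groups -/
theorem exists_perm_inf (hT : T.IsTree)
    (hact : ∀ (g : M) (u v : V), T.Adj u v → T.Adj (g • u) (g • v))
    (c : V → Bool) (hcol : ∀ u v, T.Adj u v → c u ≠ c v) (hcinv : ∀ (m : M) v, c (m • v) = c v)
    (hc : ∀ (m : M) v x, x ∈ Z v → m * x * m⁻¹ ∈ Z (m • v))
    (hE : ∀ u v, T.Adj u v → ∀ a : M, a • u = u → a • v = v → (a ∈ Z u ↔ a ∈ Z v)) :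
    ∃ π : M →* Equiv.Perm (M × ℕ), ∀ v, ∀ a : M, a • v = v → (π a = 1 ↔ a ∈ Z v) := by
  classical
  obtain ⟨D, hD⟩ := Twist.ex_inf (V := V) (M × ℕ)
    (Cardinal.mk_le_of_injective (f := fun m : M => (m, 0)) fun a b h => congrArg Prod.fst h) Z hc
  refine exists_perm_gen (1, 0) D hT hact c hcol hcinv ?_
  intro p hp
  obtain ⟨A, hA⟩ : ∃ A : Subgroup M, A = MulAction.stabilizer M p.1 ⊓ MulAction.stabilizer M p.2 :=
    ⟨_, rfl⟩
  have hA1 : A ≤ MulAction.stabilizer M p.1 := hA ▸ inf_le_left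
  have hA2 : A ≤ MulAction.stabilizer M p.2 := hA ▸ inf_le_right
  have ha1 : Ample (D.thHom p.1 A hA1) := by
    obtain ⟨q, hq, hq'⟩ := hD p.1
    exact ⟨q, hq, fun a x => hq' a (hA1 a.2) x⟩
  have ha2 : Ample (D.thHom p.2 A hA2) := by
    obtain ⟨q, hq, hq'⟩ := hD p.2
    exact ⟨q, hq, fun a x => hq' a (hA2 a.2) x⟩
  obtain ⟨β⟩ := Cardinal.eq.1 (ha2.card.trans ha1.card.symm)
  obtain ⟨σ, hσ⟩ := intertwine_gen (D.thHom p.2 A hA2) (D.thHom p.1 A hA1) ((Z p.1).subgroupOf A)
    (fun a x => by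
      rw [Subgroup.mem_subgroupOf, hE p.1 p.2 hp a (hA1 a.2) (hA2 a.2)]
      exact D.th_fix p.2 a (hA2 a.2) x)
    (fun a x => by
      rw [Subgroup.mem_subgroupOf]
      exact D.th_fix p.1 a (hA1 a.2) x) β
  refine ⟨σ, fun a h1 h2 => ?_⟩
  have h3 : a ∈ A := by
    rw [hA]
    exact ⟨h1, h2⟩
  exact hσ ⟨a, h3⟩

end main

section ql

variable {G V : Type} [Group G] [MulAction G V] {T : SimpleGraph V}

/-- compatible equivariant families of subgroups of the vertex groups -/
structure Fm (T : SimpleGraph V) (R : V → Subgroup G) : Prop where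
  fix : ∀ v, ∀ x ∈ R v, x • v = v
  conj : ∀ (g : G) v, ∀ x ∈ R v, g * x * g⁻¹ ∈ R (g • v)
  comp : ∀ v w, T.Adj v w → ∀ x ∈ R v, x • w = w → x ∈ R w

variable {R : V → Subgroup G}

theorem Fm.normal (h : Fm T R) : (⨆ v, R v).Normal := by
  refine ⟨fun x hx g => ?_⟩
  have h1 : (⨆ v, R v) ≤ (⨆ v, R v).comap (MulAut.conj g).toMonoidHom :=
    iSup_le fun v x hx => le_iSup R (g • v) (h.conj g v x hx)
  exact h1 hx

/-- **the stabilizers of the group generated by a compatible family** -/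
theorem Fm.stab (h : Fm T R) (hT : T.IsTree)
    (hact : ∀ (g : G) (u v : V), T.Adj u v → T.Adj (g • u) (g • v)) (v : V) {x : G}
    (hx : x ∈ ⨆ v, R v) (hv : x • v = v) : x ∈ R v := by
  classical
  obtain ⟨N, hN⟩ : ∃ N : Subgroup G, N = ⨆ v, R v := ⟨_, rfl⟩
  have hRN : ∀ v, R v ≤ N := fun v => hN ▸ le_iSup R v
  obtain ⟨o⟩ := hT.connected.nonempty
  -- the colours
  obtain ⟨par, hpar⟩ : ∃ par : V → V → Multiplicative (ZMod 2),
      par = fun _ _ => Multiplicative.ofAdd (1 : ZMod 2) := ⟨_, rfl⟩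
  have hp : ∀ u v, T.Adj u v → par u v * par v u = 1 := by
    intro u v h
    rw [hpar]
    show Multiplicative.ofAdd (1 : ZMod 2) * Multiplicative.ofAdd (1 : ZMod 2) = 1
    decide
  have hpm : ∀ (g : G) (u v : V), gam hT par (g • u) (g • v) = gam hT par u v := fun g u v =>
    gam_map hT hact par hp g (MonoidHom.id _) (fun _ _ => by rw [hpar]; rfl) u v
  have hhol : ∀ g ∈ N, ∀ u, gam hT par u (g • u) = 1 := by
    rw [hN]
    refine Pool.Agent.N509.TK.hol hT hact par hp R h.fix ?_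
    intro a _ u v
    rw [hpar]
  obtain ⟨π, hπ⟩ := exists_perm_inf (M := N) (T := T) (Z := fun v => (R v).subgroupOf N) hT
    (fun g u v h => hact g u v h) (fun v => decide (gam hT par o v = 1)) (by
      intro u v huv
      show decide (gam hT par o u = 1) ≠ decide (gam hT par o v = 1)
      rw [← gam_mul hT par hp o u v, gam_adj hT par hp huv, hpar]
      generalize gam hT (fun _ _ => Multiplicative.ofAdd (1 : ZMod 2)) o u = a
      show decide (a = 1) ≠ decide (a * Multiplicative.ofAdd (1 : ZMod 2) = 1)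
      revert a
      decide) (by
      intro m v
      show decide (gam hT par o ((m : G) • v) = 1) = decide (gam hT par o v = 1)
      rw [← gam_mul hT par hp o ((m : G) • o) ((m : G) • v), hhol m m.2, one_mul, hpm]) (by
      intro m v x hx
      exact h.conj (m : G) v (x : G) hx) (by
      intro u v huv a hau hav
      exact ⟨fun h1 => h.comp u v huv _ h1 hav, fun h1 => h.comp v u huv.symm _ h1 hau⟩)
  have hle : N ≤ π.ker.map N.subtype := by
    conv_lhs => rw [hN]
    refine iSup_le fun w y hy => ?_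
    refine ⟨⟨y, hRN w hy⟩, ?_, rfl⟩
    exact (hπ w ⟨y, hRN w hy⟩ (h.fix w y hy)).2 hy
  rw [← hN] at hx
  obtain ⟨y, hy, hyx⟩ := hle hx
  have h1 : (y : G) = x := hyx
  have h2 := (hπ v y (by
    show (y : G) • v = v
    rw [h1, hv])).1 hy
  have h3 : (y : G) ∈ R v := h2
  rwa [h1] at h3

end ql

end Pool.Agent.D0H56.FJ
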