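import Pool.Agent.N24.TR.Tree

/-!
# Free actions of finite quotients on one finite set
-/

set_option autoImplicit false

namespace Pool.Agent.D0H56.FJ

/-- a homomorphism on the subgroup `A` -/
def PH {G M : Type} [Group G] [Group M] (A : Subgroup G) (f : G → M) : Prop :=
  ∀ x ∈ A, ∀ y ∈ A, f (x * y) = f x * f y

section ph

variable {G M : Type} [Group G] [Group M] {A : Subgroup G} {f : G → M}

theorem PH.one (h : PH A f) : f 1 = 1 := by
  have h1 := h 1 A.one_mem 1 A.one_mem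
  rw [mul_one] at h1
  exact left_eq_mul.1 h1

theorem PH.inv (h : PH A f) {x : G} (hx : x ∈ A) : f x⁻¹ = (f x)⁻¹ := by
  have h1 := h x hx x⁻¹ (A.inv_mem hx)
  rw [mul_inv_cancel, h.one] at h1
  exact eq_inv_of_mul_eq_one_right h1.symm

theorem PH.mono (h : PH A f) {B : Subgroup G} (hB : B ≤ A) : PH B f :=
  fun x hx y hy => h x (hB hx) y (hB hy)

/-- the homomorphism -/
def PH.hom (h : PH A f) : A →* M where
  toFun x := f x
  map_one' := h.one
  map_mul' x y := h x x.2 y y.2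

end ph

section free

theorem iself {X : Type} (f : Equiv.Perm X) (x : X) : f⁻¹ (f x) = x := f.symm_apply_apply x

/-- finite sets with the same number of elements -/
noncomputable def eqv_card {X Y : Type} [Finite X] [Finite Y] (h : Nat.card X = Nat.card Y) : X ≃ Y :=
  (Finite.equivFin X).trans ((finCongr h).trans (Finite.equivFin Y).symm)

variable {A X : Type} [Group A]

/-- orbit relation of a homomorphism to permutations -/
def orb (ρ : A →* Equiv.Perm X) : Setoid X where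
  r x y := ∃ a, ρ a x = y
  iseqv := by
    refine ⟨fun x => ⟨1, by rw [map_one]; rfl⟩, ?_, ?_⟩
    · rintro x y ⟨a, rfl⟩
      exact ⟨a⁻¹, by rw [map_inv, iself]⟩
    · rintro x y z ⟨a, rfl⟩ ⟨b, rfl⟩
      exact ⟨b * a, by rw [map_mul]; rfl⟩

/-- the number of the points is the number of the orbits times the index of the stabilizers -/
theorem card_orb [Finite X] (ρ : A →* Equiv.Perm X) (Z : Subgroup A)
    (h : ∀ a x, ρ a x = x ↔ a ∈ Z) :
    Nat.card X = Nat.card (Quotient (orb ρ)) * Nat.card (A ⧸ Z) := by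
  rw [← Nat.card_prod]
  refine (Nat.card_congr (Equiv.ofBijective
    (fun p : Quotient (orb ρ) × (A ⧸ Z) => Quotient.liftOn p.2 (fun a => ρ a p.1.out) ?_) ?_)).symm
  · intro a b hab
    have h1 : a⁻¹ * b ∈ Z := QuotientGroup.leftRel_apply.1 hab
    have h2 := (h (a⁻¹ * b) p.1.out).2 h1
    show ρ a p.1.out = ρ b p.1.out
    conv_lhs => rw [← h2]
    rw [← Equiv.Perm.mul_apply, ← map_mul, mul_inv_cancel_left]
  · constructor
    · rintro ⟨x, ⟨a⟩⟩ ⟨y, ⟨b⟩⟩ hxy
      have hxy : ρ a x.out = ρ b y.out := hxy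
      have h1 : x = y := by
        rw [← Quotient.out_eq x, ← Quotient.out_eq y]
        refine Quotient.sound ⟨b⁻¹ * a, ?_⟩
        rw [map_mul, Equiv.Perm.mul_apply, hxy, map_inv, iself]
      subst h1
      refine Prod.ext rfl ?_
      refine Quotient.sound (QuotientGroup.leftRel_apply.2 ((h _ x.out).1 ?_))
      rw [map_mul, Equiv.Perm.mul_apply, ← hxy, map_inv, iself]
    · intro x
      obtain ⟨a, ha⟩ : (orb ρ).r (Quotient.mk (orb ρ) x).out x :=
        Quotient.exact (Quotient.out_eq (Quotient.mk (orb ρ) x))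
      exact ⟨(Quotient.mk _ x, (a : A ⧸ Z)), ha⟩

/-- two free actions of a finite quotient on the same finite set are isomorphic -/
theorem intertwine [Finite X] (ρ ρ' : A →* Equiv.Perm X) (Z : Subgroup A)
    (h : ∀ a x, ρ a x = x ↔ a ∈ Z) (h' : ∀ a x, ρ' a x = x ↔ a ∈ Z) :
    ∃ σ : Equiv.Perm X, ∀ a, σ * ρ a = ρ' a * σ := by
  classical
  by_cases hX : Nonempty X
  swap
  · exact ⟨1, fun a => Equiv.ext fun x => absurd ⟨x⟩ hX⟩
  obtain ⟨x0⟩ := hX
  have hc := card_orb ρ Z h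
  have hc' := card_orb ρ' Z h'
  have hpos : 0 < Nat.card X := Nat.card_pos_iff.2 ⟨⟨x0⟩, inferInstance⟩
  have hZ : 0 < Nat.card (A ⧸ Z) := by
    rcases Nat.eq_zero_or_pos (Nat.card (A ⧸ Z)) with h0 | h0
    · rw [h0, mul_zero] at hc
      omega
    · exact h0
  have hcard : Nat.card (Quotient (orb ρ)) = Nat.card (Quotient (orb ρ')) :=
    Nat.eq_of_mul_eq_mul_right hZ (hc.symm.trans hc')
  have : Finite (Quotient (orb ρ)) := Quotient.finite _
  have : Finite (Quotient (orb ρ')) := Quotient.finite _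
  let β : Quotient (orb ρ) ≃ Quotient (orb ρ') := eqv_card hcard
  have hrep : ∀ x : X, ∃ a : A, ρ a (Quotient.mk (orb ρ) x).out = x := by
    intro x
    exact Quotient.exact (Quotient.out_eq (Quotient.mk (orb ρ) x))
  choose a ha using hrep
  obtain ⟨s, hs⟩ : ∃ s : X → X, s = fun x => ρ' (a x) (β (Quotient.mk (orb ρ) x)).out := ⟨_, rfl⟩
  have hZfix : ∀ c ∈ Z, ∀ (y : X), ρ' c y = y := fun c hc y => (h' c y).2 hc
  have hinj : Function.Injective s := by
    intro x y hxy
    rw [hs] at hxy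
    have hxy : ρ' (a x) (β (Quotient.mk (orb ρ) x)).out = ρ' (a y) (β (Quotient.mk (orb ρ) y)).out :=
      hxy
    have h1 : β (Quotient.mk (orb ρ) x) = β (Quotient.mk (orb ρ) y) := by
      rw [← Quotient.out_eq (β (Quotient.mk (orb ρ) x)), ← Quotient.out_eq (β (Quotient.mk (orb ρ) y))]
      refine Quotient.sound ⟨(a y)⁻¹ * a x, ?_⟩
      rw [map_mul, Equiv.Perm.mul_apply, hxy, map_inv, iself]
    have h2 := β.injective h1
    rw [h2] at hxy
    have h3 : (a y)⁻¹ * a x ∈ Z := by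
      refine (h' _ (β (Quotient.mk (orb ρ) y)).out).1 ?_
      rw [map_mul, Equiv.Perm.mul_apply, hxy, map_inv, iself]
    have h4 := (h _ (Quotient.mk (orb ρ) y).out).2 h3
    rw [map_mul, Equiv.Perm.mul_apply, map_inv, Equiv.Perm.inv_eq_iff_eq] at h4
    rw [ha y, ← h2, ha x] at h4
    exact h4
  refine ⟨Equiv.ofBijective s (Finite.injective_iff_bijective.1 hinj), fun b => Equiv.ext fun x => ?_⟩
  show s (ρ b x) = ρ' b (s x)
  have h1 : Quotient.mk (orb ρ) (ρ b x) = Quotient.mk (orb ρ) x := by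
    symm
    exact Quotient.sound ⟨b, rfl⟩
  rw [hs]
  show ρ' (a (ρ b x)) (β (Quotient.mk (orb ρ) (ρ b x))).out =
    ρ' b (ρ' (a x) (β (Quotient.mk (orb ρ) x)).out)
  rw [h1, ← Equiv.Perm.mul_apply, ← map_mul]
  have h2 : (b * a x)⁻¹ * a (ρ b x) ∈ Z := by
    refine (h _ (Quotient.mk (orb ρ) x).out).1 ?_
    rw [map_mul, Equiv.Perm.mul_apply, map_inv, Equiv.Perm.inv_eq_iff_eq]
    have h3 := ha (ρ b x)
    rw [h1] at h3
    rw [h3, map_mul, Equiv.Perm.mul_apply, ha x]
  have h3 := hZfix _ h2 (β (Quotient.mk (orb ρ) x)).out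
  rw [map_mul, Equiv.Perm.mul_apply, map_inv, Equiv.Perm.inv_eq_iff_eq] at h3
  exact h3

/-- a free action of a finite quotient -/
theorem free_rep (Z : Subgroup A) [Z.Normal] (N : ℕ) (hN : 0 < N) (hZ : Z.index ∣ N) :
    ∃ ρ : A →* Equiv.Perm (Fin N), ∀ a x, ρ a x = x ↔ a ∈ Z := by
  classical
  obtain ⟨t, ht⟩ := hZ
  have hi : Z.index ≠ 0 := by
    intro h
    rw [h, zero_mul] at ht
    omega
  have hfi : Z.FiniteIndex := ⟨hi⟩
  have hfin : Finite (A ⧸ Z) := Subgroup.finite_quotient_of_finiteIndex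
  have hcard : Nat.card ((A ⧸ Z) × Fin t) = Nat.card (Fin N) := by
    rw [Nat.card_prod, Nat.card_fin, Nat.card_fin, ht]
    rfl
  let φ : (A ⧸ Z) × Fin t ≃ Fin N := eqv_card hcard
  let ρ0 : A →* Equiv.Perm ((A ⧸ Z) × Fin t) :=
    { toFun := fun a => (Equiv.mulLeft (a : A ⧸ Z)).prodCongr (Equiv.refl _)
      map_one' := by
        apply Equiv.ext
        rintro ⟨x, y⟩
        exact Prod.ext (one_mul x) rfl
      map_mul' := by
        intro a b
        apply Equiv.ext
        rintro ⟨x, y⟩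
        exact Prod.ext (mul_assoc (a : A ⧸ Z) (b : A ⧸ Z) x) rfl }
  refine ⟨(φ.permCongrHom).toMonoidHom.comp ρ0, fun a x => ?_⟩
  obtain ⟨⟨q, y⟩, rfl⟩ := φ.surjective x
  have h1 : (((φ.permCongrHom).toMonoidHom.comp ρ0) a) (φ (q, y)) = φ ((a : A ⧸ Z) * q, y) := by
    show φ (ρ0 a (φ.symm (φ (q, y)))) = _
    rw [Equiv.symm_apply_apply]
    rfl
  rw [h1, φ.injective.eq_iff, Prod.mk.injEq]
  constructor
  · rintro ⟨h2, -⟩
    have h3 : (a : A ⧸ Z) = 1 := mul_eq_right.1 h2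
    exact (QuotientGroup.eq_one_iff a).1 h3
  · intro h2
    have h3 : (a : A ⧸ Z) = 1 := (QuotientGroup.eq_one_iff a).2 h2
    exact ⟨by rw [h3, one_mul], rfl⟩

end free

end Pool.Agent.D0H56.FJ
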