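import Pool.Agent.D0H56.FJ.Inf
import Pool.Agent.D0H56.FJ.Gen
import Pool.Agent.N509.TK.Fin

/-!
# Quotients by the group generated by a compatible family
-/

set_option autoImplicit false

namespace Pool.Agent.D0H56.FJ

open SimpleGraph
open Pool.Agent.Y110.FJ
open Pool.Agent.N509.TK (Sb Tq Tv sm sm_spec sm_eq sm_adj qa EH hcrit metab mem_Sb)
open Pool.Agent.R941.FJ (C_equiv C_le C_cyc mem_sup_normal)
open scoped commutatorElement

variable {C : ∀ (G : Type) [Group G], Prop}

section

variable {G V : Type} [Group G] [MulAction G V] {T : SimpleGraph V} {R : V → Subgroup G}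

/-- the vertex groups of `L` modulo the family are residually finite relative to the edge groups -/
def RU (T : SimpleGraph V) (L R : V → Subgroup G) : Prop :=
  ∀ v w, T.Adj v w → ∃ U : Subgroup G, R v ≤ U ∧ U ≤ L v ∧ U.relIndex (L v) ≠ 0 ∧
    (∀ g : G, g • v = v → ∀ x ∈ U, g * x * g⁻¹ ∈ U) ∧ ∀ x ∈ U, x • w = w → x ∈ R v

/-- the cyclic extensions of the quotients of the vertex groups are in the class -/
def RV (C : ∀ (G : Type) [Group G], Prop) (L R : V → Subgroup G) : Prop :=
  ∀ (v : V) (g : G), g • v = v → ∃ (P : Type) (_ : Group P) (f : ↥(L v ⊔ Subgroup.zpowers g) →* P),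
    C P ∧ ∀ x, f x = 1 ↔ (x : G) ∈ R v

/-- transversals for the group generated by a compatible family -/
theorem Fm.exists_tq (hR : Fm T R) (hT : T.IsTree)
    (hact : ∀ (g : G) (u v : V), T.Adj u v → T.Adj (g • u) (g • v)) (N : Subgroup G) [N.Normal]
    (hN : N = ⨆ v, R v) : ∃ S : Set V, Tq T N S := by
  obtain ⟨S, hS⟩ := Tv.exists (R := Sb (V := V) N) hT
  have h1 := Tq.of_Sb hT hact N hS
  have h2 : (⨆ v : V, Sb N v) = N := by
    apply le_antisymm
    · exact Pool.Agent.N509.TK.Sb_le N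
    · conv_lhs => rw [hN]
      refine iSup_le fun v x hx => ?_
      refine (le_iSup (Sb N) v) ⟨hR.fix v x hx, ?_⟩
      rw [hN]
      exact le_iSup R v hx
  rw [h2] at h1
  exact ⟨S, h1⟩

theorem fix_quot {N : Subgroup G} [N.Normal] {S : Set V} (hS : Tq T N S) (g : G) (s : S) :
    sm hS g s = s ↔ ∃ a : G, a • (s : V) = s ∧ ∃ n ∈ N, g = n * a := by
  constructor
  · intro h
    obtain ⟨n, hn, h1⟩ := sm_spec hS g s
    rw [h] at h1
    refine ⟨n⁻¹ * g, ?_, n, hn, (mul_inv_cancel_left n g).symm⟩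
    rw [mul_smul, h1, inv_smul_smul]
  · rintro ⟨a, ha, n, hn, rfl⟩
    refine sm_eq hS hn ?_
    rw [mul_smul, ha]

theorem mk_eq {N : Subgroup G} [N.Normal] {a n : G} (hn : n ∈ N) :
    QuotientGroup.mk' N (n * a) = QuotientGroup.mk' N a := by
  rw [map_mul]
  have h1 : QuotientGroup.mk' N n = 1 := (QuotientGroup.eq_one_iff n).2 hn
  rw [h1, one_mul]

/-- **the quotient by the group generated by a compatible family** -/
theorem quot_step (hC : ClosedE C) (hM : ∀ (G : Type) [Group G], derivedSeries G 2 = ⊥ → C G)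
    (hT : T.IsTree) (hact : ∀ (g : G) (u v : V), T.Adj u v → T.Adj (g • u) (g • v))
    (L : Subgroup G) [hL : L.Normal] (hQ : C (G ⧸ L)) (hR : Fm T R) (hRL : ∀ v, R v ≤ L)
    (N : Subgroup G) [hNn : N.Normal] (hN : N = ⨆ v, R v)
    (h : (∀ v : V, ⁅L ⊓ MulAction.stabilizer G v, L ⊓ MulAction.stabilizer G v⁆ ≤ R v) ∨
      (RU T (fun v => L ⊓ MulAction.stabilizer G v) R ∧
        RV C (fun v => L ⊓ MulAction.stabilizer G v) R)) : C (G ⧸ N) := by
  obtain ⟨S, hS⟩ := hR.exists_tq hT hact N hN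
  have hRN : ∀ v, R v ≤ N := fun v => hN ▸ le_iSup R v
  have hNL : N ≤ L := by
    rw [hN]
    exact iSup_le hRL
  let _ := qa hS
  have hsm : ∀ (g : G) (s : S), (QuotientGroup.mk' N g) • s = sm hS g s := fun _ _ => rfl
  obtain ⟨L', hL'⟩ : ∃ L' : Subgroup (G ⧸ N), L' = L.map (QuotientGroup.mk' N) := ⟨_, rfl⟩
  have hLn : L'.Normal := by
    rw [hL']
    exact Subgroup.Normal.map inferInstance _ (QuotientGroup.mk'_surjective _)
  have hQ' : C ((G ⧸ N) ⧸ L') := by
    subst hL'
    exact C_equiv hC.base (QuotientGroup.quotientQuotientEquivQuotient N L hNL) hQ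
  have hTS : (T.induce S).IsTree := hS.isTree hT
  have hactS : ∀ (g : G ⧸ N) (u v : S), (T.induce S).Adj u v → (T.induce S).Adj (g • u) (g • v) := by
    intro q s t hst
    obtain ⟨g, rfl⟩ := QuotientGroup.mk_surjective q
    exact sm_adj hact hS g s t hst
  -- lifting elements which fix a vertex
  have hlift : ∀ (q : G ⧸ N) (s : S), q • s = s → ∃ a : G, a • (s : V) = s ∧
      QuotientGroup.mk' N a = q := by
    intro q s hq
    obtain ⟨g, rfl⟩ := QuotientGroup.mk'_surjective N q
    obtain ⟨a, ha, n, hn, rfl⟩ := (fix_quot hS g s).1 hq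
    exact ⟨a, ha, (mk_eq hn).symm⟩
  have hfix : ∀ (a : G) (s : S), a • (s : V) = s → (QuotientGroup.mk' N a) • s = s := by
    intro a s ha
    exact (fix_quot hS a s).2 ⟨a, ha, 1, N.one_mem, (one_mul a).symm⟩
  have hmemL : ∀ a : G, QuotientGroup.mk' N a ∈ L' → a ∈ L := by
    intro a ha
    rw [hL'] at ha
    obtain ⟨b, hb, hba⟩ := ha
    have h1 : b⁻¹ * a ∈ N := QuotientGroup.eq.1 hba
    have h2 := L.mul_mem hb (hNL h1)
    rwa [mul_inv_cancel_left] at h2
  have hLs : ∀ s : S, L' ⊓ MulAction.stabilizer (G ⧸ N) s =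
      (L ⊓ MulAction.stabilizer G (s : V)).map (QuotientGroup.mk' N) := by
    intro s
    apply le_antisymm
    · rintro q ⟨h1, h2⟩
      obtain ⟨a, ha, rfl⟩ := hlift q s h2
      exact ⟨a, ⟨hmemL a h1, ha⟩, rfl⟩
    · rintro _ ⟨a, ⟨h1, h2⟩, rfl⟩
      refine ⟨?_, hfix a s h2⟩
      rw [hL']
      exact ⟨a, h1, rfl⟩
  have hmap : ∀ {x : G}, x ∈ N → QuotientGroup.mk' N x = 1 := fun hx => (QuotientGroup.eq_one_iff _).2 hx
  rcases h with h | ⟨hU, hV⟩
  · -- abelian quotients
    have hcomm : ∀ s : S, ∀ x ∈ Sb L' s, ∀ y ∈ Sb L' s, x * y = y * x := by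
      intro s x hx y hy
      have hx' : x ∈ L' ⊓ MulAction.stabilizer (G ⧸ N) s := ⟨hx.2, hx.1⟩
      have hy' : y ∈ L' ⊓ MulAction.stabilizer (G ⧸ N) s := ⟨hy.2, hy.1⟩
      rw [hLs] at hx' hy'
      obtain ⟨a, ha, rfl⟩ := hx'
      obtain ⟨b, hb, rfl⟩ := hy'
      rw [← commutatorElement_eq_one_iff_mul_comm, ← map_commutatorElement]
      exact hmap (hRN _ (h s (Subgroup.commutator_mem_commutator ha hb)))
    refine hcrit hC hM hTS hactS L' hQ' ?_ ?_
    · intro s t _ x _ _ hx
      have h1 : ⁅Sb L' s, Sb L' s⁆ ≤ ⊥ := by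
        rw [Subgroup.commutator_le]
        intro a ha b hb
        rw [Subgroup.mem_bot, commutatorElement_eq_one_iff_mul_comm]
        exact hcomm s a ha b hb
      exact Subgroup.mem_bot.1 (h1 hx)
    · intro s g hg
      obtain ⟨B, hB⟩ : ∃ B : Subgroup (G ⧸ N), B = MulAction.stabilizer (G ⧸ N) s ⊓
        (Subgroup.zpowers (QuotientGroup.mk' L' g)).comap (QuotientGroup.mk' L') := ⟨_, rfl⟩
      have hle : Sb L' s ⊔ Subgroup.zpowers g ≤ B := by
        rw [hB]
        refine sup_le ?_ ?_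
        · rintro x ⟨h1, h2⟩
          refine ⟨h1, ?_⟩
          have h3 : QuotientGroup.mk' L' x = 1 := (QuotientGroup.eq_one_iff x).2 h2
          show QuotientGroup.mk' L' x ∈ Subgroup.zpowers (QuotientGroup.mk' L' g)
          rw [h3]
          exact Subgroup.one_mem _
        · rw [Subgroup.zpowers_le]
          exact ⟨hg, Subgroup.mem_zpowers _⟩
      refine hM _ (metab ((Sb L' s).subgroupOf (Sb L' s ⊔ Subgroup.zpowers g)) ?_ ?_)
      · intro x hx y hy
        exact Subtype.ext (hcomm s x hx y hy)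
      · rintro ⟨x, hx⟩ ⟨y, hy⟩
        have hx' := hle hx
        have hy' := hle hy
        rw [hB] at hx' hy'
        rw [Subgroup.mem_subgroupOf]
        show ⁅x, y⁆ ∈ Sb L' s
        refine ⟨?_, ?_⟩
        · rw [commutatorElement_def]
          exact Subgroup.mul_mem _ (Subgroup.mul_mem _ (Subgroup.mul_mem _ hx'.1 hy'.1)
            (Subgroup.inv_mem _ hx'.1)) (Subgroup.inv_mem _ hy'.1)
        · obtain ⟨i, hi⟩ := hx'.2
          obtain ⟨j, hj⟩ := hy'.2
          have hi : QuotientGroup.mk' L' g ^ i = QuotientGroup.mk' L' x := hi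
          have hj : QuotientGroup.mk' L' g ^ j = QuotientGroup.mk' L' y := hj
          show ⁅x, y⁆ ∈ L'
          rw [← QuotientGroup.eq_one_iff]
          show QuotientGroup.mk' L' ⁅x, y⁆ = 1
          rw [map_commutatorElement, ← hi, ← hj, commutatorElement_eq_one_iff_mul_comm, ← zpow_add,
            ← zpow_add, add_comm]
  · -- residually finite quotients
    refine one_hom hC hTS hactS (QuotientGroup.mk' L') hQ' ?_ ?_
    · rw [QuotientGroup.ker_mk']
      intro s t hst
      obtain ⟨U, h1, h2, h3, h4, h5⟩ := hU s t hst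
      refine ⟨U.map (QuotientGroup.mk' N), ?_, ?_, ?_, ?_⟩
      · rw [hLs]
        exact Subgroup.map_mono h2
      · rw [hLs, ← Subgroup.relIndex_comap]
        intro h6
        have h7 : U ≤ (U.map (QuotientGroup.mk' N)).comap (QuotientGroup.mk' N) :=
          Subgroup.le_comap_map _ _
        exact h3 (Subgroup.relIndex_eq_zero_of_le_left h7 h6)
      · rintro q hq _ ⟨x, hx, rfl⟩
        obtain ⟨a, ha, rfl⟩ := hlift q s hq
        exact ⟨a * x * a⁻¹, h4 a ha x hx, by rw [map_mul, map_mul, map_inv]⟩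
      · rintro _ ⟨x, hx, rfl⟩ hxt
        -- `x` moves `t` in its orbit
        have hxs : x • (s : V) = s := (h2 hx).2
        obtain ⟨n, hn, hnt⟩ := sm_spec hS x t
        have hxt' : sm hS x t = t := hxt
        rw [hxt'] at hnt
        have hadj : T.Adj (s : V) (x • (t : V)) := by
          have h6 : T.Adj (x • (s : V)) (x • (t : V)) := hact x _ _ hst
          rwa [hxs] at h6
        obtain ⟨u, hu, -, r, hr, hrs, hru⟩ := hS.max _ s.2 _ hadj
        have hut : u = t := by
          refine hS.trans (n⁻¹ * r) (mul_mem (inv_mem hn) hr) u hu t t.2 ?_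
          rw [mul_smul, hru, hnt, inv_smul_smul]
        rw [hut] at hru
        have hrR : r ∈ R s := hR.stab hT hact s (hN ▸ hr) hrs
        have h6 : r⁻¹ * x ∈ U := U.mul_mem (U.inv_mem (h1 hrR)) hx
        have h7 : (r⁻¹ * x) • (t : V) = t := by
          rw [mul_smul, ← hru, inv_smul_smul]
        have h8 := (R s).mul_mem hrR (h5 _ h6 h7)
        rw [mul_inv_cancel_left] at h8
        exact hmap (hRN _ h8)
    · rw [QuotientGroup.ker_mk']
      intro s q hq
      obtain ⟨a, ha, rfl⟩ := hlift q s hq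
      obtain ⟨P, _, f, hP, hf⟩ := hV s a ha
      obtain ⟨A, hA⟩ : ∃ A : Subgroup G, A = (L ⊓ MulAction.stabilizer G (s : V)) ⊔
        Subgroup.zpowers a := ⟨_, rfl⟩
      have hAs : A ≤ MulAction.stabilizer G (s : V) := by
        rw [hA]
        exact sup_le inf_le_right ((Subgroup.zpowers_le).2 ha)
      have h1 : (L' ⊓ MulAction.stabilizer (G ⧸ N) s) ⊔
          Subgroup.zpowers (QuotientGroup.mk' N a) = A.map (QuotientGroup.mk' N) := by
        rw [hLs, hA, Subgroup.map_sup, MonoidHom.map_zpowers]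
      rw [h1]
      have hP' : ∃ (P : Type) (_ : Group P) (f : A →* P), C P ∧ ∀ x, f x = 1 ↔ (x : G) ∈ R s := by
        rw [hA]
        exact ⟨P, _, f, hP, hf⟩
      obtain ⟨P', _, f', hP', hf'⟩ := hP'
      -- the homomorphism from the image
      let π : A →* A.map (QuotientGroup.mk' N) := (QuotientGroup.mk' N).subgroupMap A
      have hπs : Function.Surjective π := MonoidHom.subgroupMap_surjective _ _
      have hker : π.ker = f'.ker := by
        ext x
        rw [MonoidHom.mem_ker, MonoidHom.mem_ker, hf']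
        constructor
        · intro h2
          have h3 : QuotientGroup.mk' N (x : G) = 1 := congrArg Subtype.val h2
          have h4 : (x : G) ∈ N := (QuotientGroup.eq_one_iff _).1 h3
          exact hR.stab hT hact s (hN ▸ h4) (hAs x.2)
        · intro h2
          exact Subtype.ext (hmap (hRN _ h2))
      have e1 : (A ⧸ π.ker) ≃* A.map (QuotientGroup.mk' N) :=
        QuotientGroup.quotientKerEquivOfSurjective π hπs
      have h3 : C (A ⧸ f'.ker) :=
        hC.base.of_injective _ _ (QuotientGroup.kerLift f') (QuotientGroup.kerLift_injective _) hP'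
      have e2 : (A ⧸ π.ker) ≃* (A ⧸ f'.ker) := QuotientGroup.quotientMulEquivOfEq hker
      exact C_equiv hC.base (e1.symm.trans e2) h3

end

end Pool.Agent.D0H56.FJ
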