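import Pool.Agent.D0H56.FJ.Rep

/-!
# Local systems of finite sets on a tree
-/

set_option autoImplicit false

namespace Pool.Agent.D0H56.FJ

open SimpleGraph
open Pool.Agent.N24.TR (gam gam_map gam_mul gam_self gam_adj gam_eq wp wp_nil wp_cons shift)

section cocycle

variable {M V X : Type} [Group M] [MulAction M V]

/-- the twisting -/
structure Twist (M V X : Type) [Group M] [MulAction M V] (Z : V → Subgroup M) where
  r : V → V
  s : V → M
  ρ : V → M → Equiv.Perm X
  eq : ∀ v, v = s v • r v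
  inv : ∀ (m : M) v, r (m • v) = r v
  hom : ∀ v, PH (MulAction.stabilizer M v) (ρ v)
  free : ∀ v, ∀ a ∈ MulAction.stabilizer M v, ∀ x, ρ v a x = x ↔ a ∈ Z v
  conj : ∀ (m : M) v x, x ∈ Z v → m * x * m⁻¹ ∈ Z (m • v)

variable {Z : V → Subgroup M}

namespace Twist

variable (D : Twist M V X Z)

/-- the transport from the fibre of `v` to that of `m • v` -/
def th (m : M) (v : V) : Equiv.Perm X := D.ρ (D.r v) ((D.s (m • v))⁻¹ * m * D.s v)

theorem inv_s (v : V) : (D.s v)⁻¹ • v = D.r v := inv_smul_eq_iff.2 (D.eq v)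

theorem mm_mem (m : M) (v : V) :
    (D.s (m • v))⁻¹ * m * D.s v ∈ MulAction.stabilizer M (D.r v) := by
  rw [MulAction.mem_stabilizer_iff, mul_smul, ← D.eq v, mul_smul, D.inv_s, D.inv]

theorem th_mul (m n : M) (v : V) : D.th (m * n) v = D.th m (n • v) * D.th n v := by
  have h1 : (D.s ((m * n) • v))⁻¹ * (m * n) * D.s v =
      ((D.s (m • n • v))⁻¹ * m * D.s (n • v)) * ((D.s (n • v))⁻¹ * n * D.s v) := by
    rw [mul_smul]
    group
  have h2 := D.mm_mem m (n • v)
  rw [D.inv] at h2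
  unfold th
  rw [h1, D.inv, D.hom _ _ h2 _ (D.mm_mem n v)]

theorem th_one (v : V) : D.th 1 v = 1 := by
  have h := D.th_mul 1 1 v
  rw [mul_one, one_smul] at h
  exact left_eq_mul.1 h

theorem th_fix (v : V) (a : M) (ha : a • v = v) (x : X) : D.th a v x = x ↔ a ∈ Z v := by
  unfold th
  have h1 := D.mm_mem a v
  rw [D.free _ _ h1, ha]
  rw [ha] at h1
  constructor
  · intro h2
    have h3 := D.conj (D.s v) _ _ h2
    rw [← D.eq v] at h3
    have h4 : D.s v * ((D.s v)⁻¹ * a * D.s v) * (D.s v)⁻¹ = a := by group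
    rwa [h4] at h3
  · intro h2
    have h3 := D.conj (D.s v)⁻¹ _ _ h2
    rw [D.inv_s, inv_inv] at h3
    exact h3

/-- on the stabilizer of `v` the transport is a homomorphism -/
def thHom (v : V) (A : Subgroup M) (hA : A ≤ MulAction.stabilizer M v) : A →* Equiv.Perm X where
  toFun a := D.th a v
  map_one' := D.th_one v
  map_mul' a b := by
    have h : (b : M) • v = v := hA b.2
    show D.th ((a : M) * b) v = _
    rw [D.th_mul, h]

end Twist

/-- twistings exist -/
theorem Twist.ex (N : ℕ) (hN : 0 < N) (Z : V → Subgroup M)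
    (hc : ∀ (m : M) v x, x ∈ Z v → m * x * m⁻¹ ∈ Z (m • v))
    (hi : ∀ v, ((Z v).subgroupOf (MulAction.stabilizer M v)).index ∣ N) :
    Nonempty (Twist M V (Fin N) Z) := by
  classical
  have h1 : ∀ v, ∃ ρ : MulAction.stabilizer M v →* Equiv.Perm (Fin N),
      ∀ a x, ρ a x = x ↔ a ∈ (Z v).subgroupOf (MulAction.stabilizer M v) := by
    intro v
    have : ((Z v).subgroupOf (MulAction.stabilizer M v)).Normal := by
      refine ⟨fun n hn g => ?_⟩
      rw [Subgroup.mem_subgroupOf] at hn ⊢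
      have h2 := hc g v _ hn
      have h3 : (g : M) • v = v := g.2
      rw [h3] at h2
      exact h2
    exact free_rep _ N hN (hi v)
  choose ρ hρ using h1
  have h2 : ∀ v : V, ∃ m : M, v = m • (Quotient.mk (MulAction.orbitRel M V) v).out := by
    intro v
    have h3 : (MulAction.orbitRel M V).r v (Quotient.mk (MulAction.orbitRel M V) v).out :=
      Quotient.exact (Quotient.out_eq (Quotient.mk (MulAction.orbitRel M V) v)).symm
    obtain ⟨m, hm⟩ := h3
    exact ⟨m, hm.symm⟩
  choose s hs using h2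
  refine ⟨{ r := fun v => (Quotient.mk (MulAction.orbitRel M V) v).out
            s := s
            ρ := fun v m => if h : m ∈ MulAction.stabilizer M v then ρ v ⟨m, h⟩ else 1
            eq := hs
            inv := ?_
            hom := ?_
            free := ?_
            conj := hc }⟩
  · intro m v
    have h3 : Quotient.mk (MulAction.orbitRel M V) (m • v) = Quotient.mk (MulAction.orbitRel M V) v :=
      Quotient.sound ⟨m, rfl⟩
    show (Quotient.mk (MulAction.orbitRel M V) (m • v)).out = _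
    rw [h3]
  · intro v x hx y hy
    show (if h : x * y ∈ MulAction.stabilizer M v then ρ v ⟨x * y, h⟩ else 1) =
      (if h : x ∈ MulAction.stabilizer M v then ρ v ⟨x, h⟩ else 1) *
      (if h : y ∈ MulAction.stabilizer M v then ρ v ⟨y, h⟩ else 1)
    rw [dif_pos hx, dif_pos hy, dif_pos (mul_mem hx hy), ← map_mul]
    rfl
  · intro v a ha x
    show (if h : a ∈ MulAction.stabilizer M v then ρ v ⟨a, h⟩ else 1) x = x ↔ _
    rw [dif_pos ha, hρ v ⟨a, ha⟩ x]
    exact Subgroup.mem_subgroupOf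

end cocycle

section main

variable {M V : Type} [Group M] [MulAction M V] {T : SimpleGraph V} {Z : V → Subgroup M}

/-- representatives of the orbits of a set with an action -/
theorem reps (M V : Type) [Group M] [MulAction M V] :
    ∃ (R : V → V) (S : V → M), (∀ v, v = S v • R v) ∧ ∀ (m : M) v, R (m • v) = R v := by
  have h2 : ∀ v : V, ∃ m : M, v = m • (Quotient.mk (MulAction.orbitRel M V) v).out := by
    intro v
    have h3 : (MulAction.orbitRel M V).r v (Quotient.mk (MulAction.orbitRel M V) v).out :=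
      Quotient.exact (Quotient.out_eq (Quotient.mk (MulAction.orbitRel M V) v)).symm
    obtain ⟨m, hm⟩ := h3
    exact ⟨m, hm.symm⟩
  choose s hs using h2
  refine ⟨fun v => (Quotient.mk (MulAction.orbitRel M V) v).out, s, hs, fun m v => ?_⟩
  have h3 : Quotient.mk (MulAction.orbitRel M V) (m • v) = Quotient.mk (MulAction.orbitRel M V) v :=
    Quotient.sound ⟨m, rfl⟩
  show (Quotient.mk (MulAction.orbitRel M V) (m • v)).out = _
  rw [h3]

/-- the equivariant isomorphisms of the fibres of adjacent vertices -/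
theorem exists_glue {X : Type} (D : Twist M V X Z)
    (hact : ∀ (g : M) (u v : V), T.Adj u v → T.Adj (g • u) (g • v))
    (h1 : ∀ p : V × V, T.Adj p.1 p.2 → ∃ σ : Equiv.Perm X, ∀ a : M, a • p.1 = p.1 → a • p.2 = p.2 →
      σ * D.th a p.2 = D.th a p.1 * σ) :
    ∃ e : V → V → Equiv.Perm X, ∀ (m : M) (u v : V), T.Adj u v →
      e (m • u) (m • v) = D.th m u * e u v * (D.th m v)⁻¹ := by
  classical
  obtain ⟨R, S, hS, hR⟩ := reps M (V × V)
  have h2 : ∀ p : V × V, ∃ σ : Equiv.Perm X, T.Adj p.1 p.2 → ∀ a : M, a • p.1 = p.1 → a • p.2 = p.2 →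
      σ * D.th a p.2 = D.th a p.1 * σ := by
    intro p
    by_cases hp : T.Adj p.1 p.2
    · obtain ⟨σ, hσ⟩ := h1 p hp
      exact ⟨σ, fun _ => hσ⟩
    · exact ⟨1, fun h => absurd h hp⟩
  choose σ hσ using h2
  refine ⟨fun u v => D.th (S (u, v)) (R (u, v)).1 * σ (R (u, v)) * (D.th (S (u, v)) (R (u, v)).2)⁻¹,
    fun m u v huv => ?_⟩
  have hR' : R (m • u, m • v) = R (u, v) := hR m (u, v)
  obtain ⟨p, hp⟩ : ∃ p, p = R (u, v) := ⟨_, rfl⟩
  obtain ⟨n, hn⟩ : ∃ n, n = S (u, v) := ⟨_, rfl⟩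
  obtain ⟨n', hn'⟩ : ∃ n', n' = S (m • u, m • v) := ⟨_, rfl⟩
  show D.th (S (m • u, m • v)) (R (m • u, m • v)).1 * σ (R (m • u, m • v)) *
    (D.th (S (m • u, m • v)) (R (m • u, m • v)).2)⁻¹ =
    D.th m u * (D.th (S (u, v)) (R (u, v)).1 * σ (R (u, v)) * (D.th (S (u, v)) (R (u, v)).2)⁻¹) *
      (D.th m v)⁻¹
  rw [hR', ← hp, ← hn, ← hn']
  have h3 : (u, v) = n • p := by
    rw [hn, hp]
    exact hS (u, v)
  have h4 : (m • u, m • v) = n' • p := by
    rw [hn', hp, ← hR']
    exact hS (m • u, m • v)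
  have hu : u = n • p.1 := congrArg Prod.fst h3
  have hv : v = n • p.2 := congrArg Prod.snd h3
  have hmu : m • u = n' • p.1 := congrArg Prod.fst h4
  have hmv : m • v = n' • p.2 := congrArg Prod.snd h4
  have hadj : T.Adj p.1 p.2 := by
    have := hact n⁻¹ _ _ huv
    rwa [hu, hv, inv_smul_smul, inv_smul_smul] at this
  obtain ⟨a, ha⟩ : ∃ a, a = (m * n)⁻¹ * n' := ⟨_, rfl⟩
  have hn'a : n' = m * n * a := by
    rw [ha, mul_inv_cancel_left]
  have ha1 : a • p.1 = p.1 := by
    rw [ha, mul_smul, ← hmu, hu, ← mul_smul m n, inv_smul_smul]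
  have ha2 : a • p.2 = p.2 := by
    rw [ha, mul_smul, ← hmv, hv, ← mul_smul m n, inv_smul_smul]
  have h5 := hσ p hadj a ha1 ha2
  have h6 : σ p = D.th a p.1 * σ p * (D.th a p.2)⁻¹ := by
    rw [← h5, mul_inv_cancel_right]
  rw [hn'a, D.th_mul (m * n) a, D.th_mul (m * n) a, ha1, ha2, D.th_mul m n, D.th_mul m n, ← hu, ← hv]
  conv_rhs => rw [h6]
  simp only [mul_inv_rev, mul_assoc]

/-- **a homomorphism to a symmetric group with prescribed kernels on the vertex groups** -/
theorem exists_perm_gen {X : Type} (x0 : X) (D : Twist M V X Z) (hT : T.IsTree)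
    (hact : ∀ (g : M) (u v : V), T.Adj u v → T.Adj (g • u) (g • v))
    (c : V → Bool) (hcol : ∀ u v, T.Adj u v → c u ≠ c v) (hcinv : ∀ (m : M) v, c (m • v) = c v)
    (h1 : ∀ p : V × V, T.Adj p.1 p.2 → ∃ σ : Equiv.Perm X, ∀ a : M, a • p.1 = p.1 → a • p.2 = p.2 →
      σ * D.th a p.2 = D.th a p.1 * σ) :
    ∃ π : M →* Equiv.Perm X, ∀ v, ∀ a : M, a • v = v → (π a = 1 ↔ a ∈ Z v) := by
  classical
  obtain ⟨e0, he0⟩ := exists_glue D hact h1
  obtain ⟨e, he⟩ : ∃ e : V → V → Equiv.Perm X,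
      e = fun u v => if c u then e0 u v else (e0 v u)⁻¹ := ⟨_, rfl⟩
  have heinv : ∀ u v, T.Adj u v → e u v * e v u = 1 := by
    intro u v huv
    have h1 := hcol u v huv
    rw [he]
    show (if c u then e0 u v else (e0 v u)⁻¹) * (if c v then e0 v u else (e0 u v)⁻¹) = 1
    by_cases hu : c u = true
    · have hv : ¬ (c v = true) := fun h => h1 (hu.trans h.symm)
      rw [if_pos hu, if_neg hv, mul_inv_cancel]
    · have hv : c v = true := by
        cases h2 : c v
        · exfalso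
          apply h1
          rw [h2]
          cases h3 : c u
          · rfl
          · exact absurd h3 hu
        · rfl
      rw [if_neg hu, if_pos hv, inv_mul_cancel]
  have heq : ∀ (m : M) (u v : V), T.Adj u v →
      e (m • u) (m • v) = D.th m u * e u v * (D.th m v)⁻¹ := by
    intro m u v huv
    rw [he]
    show (if c (m • u) then e0 (m • u) (m • v) else (e0 (m • v) (m • u))⁻¹) =
      D.th m u * (if c u then e0 u v else (e0 v u)⁻¹) * (D.th m v)⁻¹
    rw [hcinv]
    by_cases hu : c u = true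
    · rw [if_pos hu, if_pos hu]
      exact he0 m u v huv
    · rw [if_neg hu, if_neg hu, he0 m v u huv.symm]
      group
  have hgs : ∀ (m : M) (u v : V), gam hT e (m • u) (m • v) =
      D.th m u * gam hT e u v * (D.th m v)⁻¹ := by
    intro m u v
    obtain ⟨p⟩ := hT.connected.preconnected u v
    have h0 : gam hT e (m • u) (m • v) = wp e (p.map (shift hact m)) :=
      gam_eq hT _ heinv (p.map (shift hact m))
    rw [gam_eq hT _ heinv p, h0]
    clear h0
    induction p with
    | nil =>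
      show (1 : Equiv.Perm X) = _
      rw [wp_nil, mul_one, mul_inv_cancel]
    | @cons u w v h p ih =>
      rw [Walk.map_cons, wp_cons, wp_cons, ih]
      show e (m • u) (m • w) * _ = _
      rw [heq m u w h]
      simp only [mul_assoc]
      rw [inv_mul_cancel_left]
  obtain ⟨o⟩ := hT.connected.nonempty
  obtain ⟨γ, hγ⟩ : ∃ γ, γ = gam hT e := ⟨_, rfl⟩
  have hγm : ∀ u v w, γ u v * γ v w = γ u w := by
    rw [hγ]
    exact gam_mul hT _ heinv
  have hγ1 : ∀ u, γ u u = 1 := by
    rw [hγ]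
    exact gam_self hT _ heinv
  rw [← hγ] at hgs
  refine ⟨MonoidHom.mk' (fun m => γ o (m • o) * D.th m o) ?_, ?_⟩
  · intro m n
    show γ o ((m * n) • o) * D.th (m * n) o = γ o (m • o) * D.th m o * (γ o (n • o) * D.th n o)
    rw [mul_smul, D.th_mul, ← hγm o (m • o) (m • n • o), hgs m o (n • o)]
    simp only [mul_assoc]
    rw [inv_mul_cancel_left]
  · intro v a ha
    show γ o (a • o) * D.th a o = 1 ↔ _
    have h1 := hgs a o v
    rw [ha] at h1
    -- `γ (a • o) v = θ_a(o) γ(o, v) θ_a(v)⁻¹`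
    have h2 : D.th a o = γ (a • o) v * D.th a v * γ v o := by
      rw [h1]
      simp only [mul_assoc]
      rw [inv_mul_cancel_left, hγm o v o, hγ1, mul_one]
    rw [h2]
    have h3 : γ o (a • o) * (γ (a • o) v * D.th a v * γ v o) = γ o v * D.th a v * γ v o := by
      rw [← mul_assoc, ← mul_assoc, hγm]
    rw [h3]
    have h4 : γ v o = (γ o v)⁻¹ := by
      rw [eq_inv_iff_mul_eq_one, hγm, hγ1]
    rw [h4, conj_eq_one_iff]
    constructor
    · intro h5
      exact (D.th_fix v a ha x0).1 (by rw [h5]; rfl)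
    · intro h5
      apply Equiv.ext
      intro x
      exact (D.th_fix v a ha x).2 h5

/-- **finite symmetric groups** -/
theorem exists_perm (hT : T.IsTree)
    (hact : ∀ (g : M) (u v : V), T.Adj u v → T.Adj (g • u) (g • v))
    (c : V → Bool) (hcol : ∀ u v, T.Adj u v → c u ≠ c v) (hcinv : ∀ (m : M) v, c (m • v) = c v)
    (N : ℕ) (hN : 0 < N)
    (hc : ∀ (m : M) v x, x ∈ Z v → m * x * m⁻¹ ∈ Z (m • v))
    (hi : ∀ v, ((Z v).subgroupOf (MulAction.stabilizer M v)).index ∣ N)
    (hE : ∀ u v, T.Adj u v → ∀ a : M, a • u = u → a • v = v → (a ∈ Z u ↔ a ∈ Z v)) :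
    ∃ π : M →* Equiv.Perm (Fin N), ∀ v, ∀ a : M, a • v = v → (π a = 1 ↔ a ∈ Z v) := by
  classical
  obtain ⟨D⟩ := Twist.ex N hN Z hc hi
  refine exists_perm_gen ⟨0, hN⟩ D hT hact c hcol hcinv ?_
  intro p hp
  obtain ⟨A, hA⟩ : ∃ A : Subgroup M, A = MulAction.stabilizer M p.1 ⊓ MulAction.stabilizer M p.2 :=
    ⟨_, rfl⟩
  have hA1 : A ≤ MulAction.stabilizer M p.1 := hA ▸ inf_le_left
  have hA2 : A ≤ MulAction.stabilizer M p.2 := hA ▸ inf_le_right
  obtain ⟨σ, hσ⟩ := intertwine (D.thHom p.2 A hA2) (D.thHom p.1 A hA1) ((Z p.1).subgroupOf A)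
    (fun a x => by
      rw [Subgroup.mem_subgroupOf, hE p.1 p.2 hp a (hA1 a.2) (hA2 a.2)]
      exact D.th_fix p.2 a (hA2 a.2) x)
    (fun a x => by
      rw [Subgroup.mem_subgroupOf]
      exact D.th_fix p.1 a (hA1 a.2) x)
  refine ⟨σ, fun a h1 h2 => ?_⟩
  have h3 : a ∈ A := by
    rw [hA]
    exact ⟨h1, h2⟩
  exact hσ ⟨a, h3⟩

end main

end Pool.Agent.D0H56.FJ
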